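import Pool.Agent.Helper206.Berg.Geo

/-!
# Smooth convergence to the Fubini-Study metric
-/

set_option backward.isDefEq.respectTransparency.types false

open scoped Topology ContDiff

noncomputable section

namespace Pool.Agent.Y16.BK

open Pool.Agent.Helper206.Berg (Ef Ef_contDiffAt_9288 cd1_9288 cd2_9288)

/-- The difference of the squared norms, as a function of the parameter and the vector. -/
def GG (p : ℝ × (ℂ × ℂ)) : ℝ := (‖p.2.1‖ ^ 2 + ‖p.2.2‖ ^ 2) * (Real.exp (p.1 * Ef p.2) - 1)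

/-- The nonzero vectors. -/
def SS : Set (ℝ × (ℂ × ℂ)) := {p | p.2 ≠ 0}

theorem SS_open : IsOpen SS := isOpen_ne_fun continuous_snd continuous_const

theorem GG_cd : ContDiffOn ℝ ∞ GG SS := by
  intro p hp
  apply ContDiffAt.contDiffWithinAt
  have h1 : ContDiffAt ℝ ∞ (fun p : ℝ × (ℂ × ℂ) => Ef p.2) p :=
    ContDiffAt.comp p (g := Ef) (f := fun p : ℝ × (ℂ × ℂ) => p.2) (Ef_contDiffAt_9288 hp)
      contDiffAt_snd
  have h2 : ContDiffAt ℝ ∞ (fun p : ℝ × (ℂ × ℂ) => ‖p.2.1‖ ^ 2 + ‖p.2.2‖ ^ 2) p :=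
    ContDiffAt.comp p (g := fun v : ℂ × ℂ => ‖v.1‖ ^ 2 + ‖v.2‖ ^ 2)
      (f := fun p : ℝ × (ℂ × ℂ) => p.2) (cd1_9288.add cd2_9288).contDiffAt contDiffAt_snd
  exact h2.mul (((contDiffAt_fst.mul h1).exp).sub contDiffAt_const)

/-- The iterated derivatives in the vector variable. -/
theorem partial_eq (n : ℕ) (e : ℝ) {v : ℂ × ℂ} (hv : v ≠ 0) :
    iteratedFDeriv ℝ n (fun w : ℂ × ℂ => GG (e, w)) v =
      (iteratedFDeriv ℝ n GG (e, v)).compContinuousLinearMap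
        (fun _ => ContinuousLinearMap.inr ℝ ℝ (ℂ × ℂ)) := by
  have hpre : IsOpen ((ContinuousLinearMap.inr ℝ ℝ (ℂ × ℂ)) ⁻¹' SS) :=
    SS_open.preimage (ContinuousLinearMap.inr ℝ ℝ (ℂ × ℂ)).continuous
  have hf : ContDiffOn ℝ ∞ (fun p => GG (((e, 0) : ℝ × (ℂ × ℂ)) + p)) SS := by
    refine GG_cd.comp (contDiffOn_const.add contDiffOn_id) ?_
    intro p hp
    simpa [SS] using hp
  have hv' : (ContinuousLinearMap.inr ℝ ℝ (ℂ × ℂ)) v ∈ SS := by simpa [SS] using hv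
  have h := ContinuousLinearMap.iteratedFDerivWithin_comp_right
    (ContinuousLinearMap.inr ℝ ℝ (ℂ × ℂ)) hf SS_open.uniqueDiffOn hpre.uniqueDiffOn (x := v) hv'
    (i := n) (by exact_mod_cast le_top)
  rw [iteratedFDerivWithin_of_isOpen n hpre (by exact hv'),
    iteratedFDerivWithin_of_isOpen n SS_open hv', iteratedFDeriv_comp_add_left] at h
  have e1 : (fun w : ℂ × ℂ => GG (e, w)) =
      (fun p => GG (((e, 0) : ℝ × (ℂ × ℂ)) + p)) ∘ (ContinuousLinearMap.inr ℝ ℝ (ℂ × ℂ)) := by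
    funext w
    simp
  have e2 : ((e, 0) : ℝ × (ℂ × ℂ)) + (ContinuousLinearMap.inr ℝ ℝ (ℂ × ℂ)) v = (e, v) := by
    simp
  rw [e1, h, e2]

theorem continuousOn_partial (n : ℕ) :
    ContinuousOn (fun p : ℝ × (ℂ × ℂ) => ‖iteratedFDeriv ℝ n (fun w : ℂ × ℂ => GG (p.1, w)) p.2‖)
      SS := by
  have h1 : ContinuousOn (iteratedFDeriv ℝ n GG) SS := by
    have h := GG_cd.continuousOn_iteratedFDerivWithin (m := n) (by exact_mod_cast le_top)
      SS_open.uniqueDiffOn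
    refine h.congr ?_
    intro p hp
    exact (iteratedFDerivWithin_of_isOpen n SS_open hp).symm
  have h2 : ContinuousOn (fun p : ℝ × (ℂ × ℂ) =>
      (ContinuousMultilinearMap.compContinuousLinearMapL (𝕜 := ℝ) (F := ℝ)
        (fun _ : Fin n => ContinuousLinearMap.inr ℝ ℝ (ℂ × ℂ))) (iteratedFDeriv ℝ n GG p)) SS :=
    (ContinuousLinearMap.continuous _).comp_continuousOn h1
  refine h2.norm.congr ?_
  intro p hp
  have h3 := partial_eq n p.1 (v := p.2) hp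
  simp only
  rw [h3]
  rfl

theorem conv_ev (n : ℕ) (K : Set (ℂ × ℂ)) (hK : IsCompact K) (h0 : (0 : ℂ × ℂ) ∉ K) (ε : ℝ)
    (hε : 0 < ε) : ∀ᶠ e : ℝ in 𝓝 0, ∀ v ∈ K,
      ‖iteratedFDeriv ℝ n (fun w : ℂ × ℂ => GG (e, w)) v‖ < ε := by
  refine hK.eventually_forall_of_forall_eventually ?_
  intro v hv
  have hv0 : ((0 : ℝ), v) ∈ SS := by
    show v ≠ 0
    rintro rfl
    exact h0 hv
  have h2 := (continuousOn_partial n).continuousAt (SS_open.mem_nhds hv0)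
  have h3 : ‖iteratedFDeriv ℝ n (fun w : ℂ × ℂ => GG ((0 : ℝ), w)) v‖ = 0 := by
    have : (fun w : ℂ × ℂ => GG ((0 : ℝ), w)) = fun _ => (0 : ℝ) := by
      funext w
      simp [GG]
    rw [this, iteratedFDeriv_fun_zero]
    simp
  exact h2.eventually_lt continuousAt_const (by simpa [h3] using hε)

/-- On compact sets of nonzero vectors all derivatives of the difference tend to zero with the
parameter. -/
theorem conv (n : ℕ) (K : Set (ℂ × ℂ)) (hK : IsCompact K) (h0 : (0 : ℂ × ℂ) ∉ K) (ε : ℝ)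
    (hε : 0 < ε) : ∃ e₀ : ℝ, 0 < e₀ ∧ ∀ e : ℝ, |e| ≤ e₀ → ∀ j ≤ n, ∀ v ∈ K,
      ‖iteratedFDeriv ℝ j (fun w : ℂ × ℂ => GG (e, w)) v‖ < ε := by
  have h1 : ∀ᶠ e : ℝ in 𝓝 0, ∀ j ∈ Finset.range (n + 1), ∀ v ∈ K,
      ‖iteratedFDeriv ℝ j (fun w : ℂ × ℂ => GG (e, w)) v‖ < ε :=
    (Filter.eventually_all_finset _).2 fun j _ => conv_ev j K hK h0 ε hε
  obtain ⟨r, hr, hr2⟩ := Metric.eventually_nhds_iff.1 h1
  refine ⟨r / 2, by positivity, fun e he j hj => hr2 ?_ j (Finset.mem_range.2 (by omega))⟩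
  rw [Real.dist_eq, sub_zero]
  linarith

end Pool.Agent.Y16.BK
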