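import Mathlib
import Pool.Agent.Helper206.Berg.Defs
import Pool.Agent.Helper206.Berg.Core
import Pool.Agent.Helper206.Berg.Geo

/-!
# A family of metrics with uniform exponential decay

Adaptation of helper206's file Geo.lean (the metric with the parameter 1/1000) to all parameters
between 0 and 1/1000, with constants which do not depend on the parameter.
-/

set_option backward.isDefEq.respectTransparency.types false
set_option maxHeartbeats 4000000
set_option synthInstance.maxHeartbeats 400000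
set_option linter.unusedSectionVars false

open scoped Topology ComplexConjugate ContDiff
open MeasureTheory Set

noncomputable section

namespace Pool.Agent.Y16.BK

open Pool.Agent.Helper206.Berg (HermitianMetric IsSection fsDist Ef nsq_pos_9288 Ef_smul_9288 cd1_9288
  cd2_9288 Ef_contDiffAt_9288 laplacian_radial uR u1R JR uR_sub_half_convexOn u1R_ge hasDerivAt_uR
  angular mono isSection_mono j9293_w_integrable j9293_mono_eq j9293_cast2 inner_sum_one_ne
  kernel_eq_mono exp_half_image log_subst diag_P1 diag_P2 diag_low radial_const747)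

/-- A parameter between 0 and 1/1000. -/
class EP where
  e : ℝ
  pos : 0 ≤ e
  le : e ≤ 1 / 1000

/-- The parameter. -/
def ee [EP] : ℝ := EP.e

theorem ee_nonneg [EP] : 0 ≤ ee := EP.pos

theorem ee_le [EP] : ee ≤ 1 / 1000 := EP.le

/-- The squared norm defining the metric. -/
def PhE (e : ℝ) (v : ℂ × ℂ) : ℝ := (‖v.1‖ ^ 2 + ‖v.2‖ ^ 2) * Real.exp (e * Ef v)

theorem PhE_pos (e : ℝ) {v : ℂ × ℂ} (hv : v ≠ 0) : 0 < PhE e v := by
  unfold PhE
  exact mul_pos (nsq_pos_9288 hv) (Real.exp_pos _)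

theorem PhE_smul (e : ℝ) {c : ℂ} (hc : c ≠ 0) (v : ℂ × ℂ) : PhE e (c • v) = ‖c‖ ^ 2 * PhE e v := by
  unfold PhE
  rw [Ef_smul_9288 hc]
  simp only [Prod.smul_fst, Prod.smul_snd, smul_eq_mul, norm_mul, mul_pow]
  ring

theorem contDiffOn_PhE (e : ℝ) : ContDiffOn ℝ ∞ (PhE e) {v | v ≠ 0} := by
  intro v hv
  apply ContDiffAt.contDiffWithinAt
  unfold PhE
  exact (cd1_9288.contDiffAt.add cd2_9288.contDiffAt).mul
    (contDiffAt_const.mul (Ef_contDiffAt_9288 hv)).exp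

/-- The Hermitian metric on `O(1) → ℙ¹` whose squared dual norm is
`(|a|² + |b|²) exp (e exp (- |a|² / |b|²))`. -/
def metric (e : ℝ) : HermitianMetric where
  Φ := PhE e
  pos := fun _ hv => PhE_pos e hv
  homog := fun _ v hc _ => PhE_smul e hc v
  smooth := contDiffOn_PhE e

variable [EP]

/-- The squared norm with the given parameter. -/
def Ph (v : ℂ × ℂ) : ℝ := (‖v.1‖ ^ 2 + ‖v.2‖ ^ 2) * Real.exp (ee * Ef v)

theorem Ph_pos {v : ℂ × ℂ} (hv : v ≠ 0) : 0 < Ph v := PhE_pos ee hv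

theorem Ph_smul {c : ℂ} (hc : c ≠ 0) (v : ℂ × ℂ) : Ph (c • v) = ‖c‖ ^ 2 * Ph v := PhE_smul ee hc v

theorem contDiffOn_Ph : ContDiffOn ℝ ∞ Ph {v | v ≠ 0} := contDiffOn_PhE ee

/-- The metric with the given parameter. -/
def hB : HermitianMetric := metric ee


/-- first and second derivatives of the two radial potentials -/
theorem pos_F2 (t : ℝ) (ht : 0 ≤ t) :
    ContDiffAt ℝ 2 (fun s : ℝ => Real.log (1 + s) + ee * Real.exp (-s)) t ∧
    0 < t * deriv (deriv (fun s : ℝ => Real.log (1 + s) + ee * Real.exp (-s))) t +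
      deriv (fun s : ℝ => Real.log (1 + s) + ee * Real.exp (-s)) t := by
  have hne : (1 : ℝ) + t ≠ 0 := by positivity
  refine ⟨?_, ?_⟩
  · refine ContDiffAt.add (ContDiffAt.log (by fun_prop) hne) (by fun_prop)
  · have h1 : ∀ s : ℝ, 1 + s ≠ 0 →
        HasDerivAt (fun s : ℝ => Real.log (1 + s) + ee * Real.exp (-s))
          (1 / (1 + s) - ee * Real.exp (-s)) s := by
      intro s hs
      have a1 : HasDerivAt (fun s : ℝ => Real.log (1 + s)) (1 / (1 + s)) s :=
        ((hasDerivAt_id s).const_add 1).log hs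
      have a2 : HasDerivAt (fun s : ℝ => ee * Real.exp (-s)) (ee * (Real.exp (-s) * -1)) s :=
        ((hasDerivAt_neg s).exp).const_mul _
      exact (a1.add a2).congr_deriv (by ring)
    have h2 : deriv (fun s : ℝ => Real.log (1 + s) + ee * Real.exp (-s)) =ᶠ[𝓝 t]
        fun s => 1 / (1 + s) - ee * Real.exp (-s) := by
      have : ∀ᶠ s in 𝓝 t, 1 + s ≠ 0 :=
        (continuous_const.add continuous_id).continuousAt.eventually_ne hne
      filter_upwards [this] with s hs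
      exact (h1 s hs).deriv
    have h3 : HasDerivAt (fun s : ℝ => 1 / (1 + s) - ee * Real.exp (-s))
        (-1 / (1 + t) ^ 2 + ee * Real.exp (-t)) t := by
      have a1 : HasDerivAt (fun s : ℝ => 1 / (1 + s)) (-1 / (1 + t) ^ 2) t := by
        have h := ((hasDerivAt_id t).const_add (1 : ℝ)).inv hne
        simp only [one_div]
        exact h.congr_deriv (by simp)
      have a2 : HasDerivAt (fun s : ℝ => ee * Real.exp (-s)) (ee * (Real.exp (-t) * -1)) t :=
        ((hasDerivAt_neg t).exp).const_mul _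
      exact (a1.sub a2).congr_deriv (by ring)
    rw [h2.deriv_eq, h3.deriv, (h1 t hne).deriv]
    have e0 : t * (-1 / (1 + t) ^ 2 + ee * Real.exp (-t)) +
        (1 / (1 + t) - ee * Real.exp (-t)) =
        1 / (1 + t) ^ 2 + ee * ((t - 1) * Real.exp (-t)) := by
      field_simp
      ring
    rw [e0]
    have hp : 0 < 1 / (1 + t) ^ 2 := by positivity
    rcases le_or_gt 1 t with h | h
    · have : 0 ≤ (t - 1) * Real.exp (-t) := mul_nonneg (by linarith) (Real.exp_pos _).le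
      have h9 := mul_nonneg ee_nonneg this
      linarith
    · have q1 : 1 / 4 ≤ 1 / (1 + t) ^ 2 := by
        apply one_div_le_one_div_of_le (by positivity)
        nlinarith
      have q2 : Real.exp (-t) ≤ 1 := Real.exp_le_one_iff.2 (by linarith)
      have q3 : -1 ≤ (t - 1) * Real.exp (-t) := by
        have := Real.exp_pos (-t)
        nlinarith
      have h9 := mul_le_mul_of_nonneg_left q3 ee_nonneg
      have h8 := ee_le
      linarith

theorem pos_F1 (t : ℝ) (ht : 0 ≤ t) :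
    ContDiffAt ℝ 2 (fun s : ℝ => Real.log (1 + s) + ee * expNegInvGlue s) t ∧
    0 < t * deriv (deriv (fun s : ℝ => Real.log (1 + s) + ee * expNegInvGlue s)) t +
      deriv (fun s : ℝ => Real.log (1 + s) + ee * expNegInvGlue s) t := by
  have hne : (1 : ℝ) + t ≠ 0 := by positivity
  have hgc : ContDiff ℝ 2 expNegInvGlue := expNegInvGlue.contDiff
  refine ⟨?_, ?_⟩
  · refine ContDiffAt.add (ContDiffAt.log (by fun_prop) hne) ?_
    exact (contDiff_const.mul hgc).contDiffAt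
  · rcases ht.eq_or_lt with h0 | h0
    · subst h0
      have a1 : HasDerivAt (fun s : ℝ => Real.log (1 + s)) (1 / (1 + 0)) 0 :=
        ((hasDerivAt_id (0 : ℝ)).const_add 1).log hne
      have a2 : HasDerivAt expNegInvGlue 0 0 := by
        have hd : DifferentiableAt ℝ expNegInvGlue 0 :=
          hgc.contDiffAt.differentiableAt (by norm_num)
        have hmin : IsLocalMin expNegInvGlue 0 := by
          refine Filter.Eventually.of_forall fun x => ?_
          rw [expNegInvGlue.zero]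
          exact expNegInvGlue.nonneg x
        have := hd.hasDerivAt
        rwa [hmin.deriv_eq_zero] at this
      have a3 := (a1.add (a2.const_mul (ee))).deriv
      have e : deriv (fun s : ℝ => Real.log (1 + s) + ee * expNegInvGlue s) 0 =
          1 / (1 + 0) + ee * 0 := a3
      rw [e]
      norm_num
    · have hg1 : ∀ s : ℝ, 0 < s → HasDerivAt expNegInvGlue (Real.exp (-s⁻¹) * (s ^ 2)⁻¹) s := by
        intro s hs
        have b1 : expNegInvGlue =ᶠ[𝓝 s] fun x => Real.exp (-x⁻¹) := by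
          filter_upwards [lt_mem_nhds hs] with x hx
          simp [expNegInvGlue, not_le.2 hx]
        have b2 : HasDerivAt (fun x : ℝ => Real.exp (-x⁻¹)) (Real.exp (-s⁻¹) * (s ^ 2)⁻¹) s := by
          have := ((hasDerivAt_inv hs.ne').neg).exp
          simpa using this
        exact b2.congr_of_eventuallyEq b1
      have h1 : ∀ s : ℝ, 0 < s →
          HasDerivAt (fun s : ℝ => Real.log (1 + s) + ee * expNegInvGlue s)
            (1 / (1 + s) + ee * (Real.exp (-s⁻¹) * (s ^ 2)⁻¹)) s := by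
        intro s hs
        have a1 : HasDerivAt (fun s : ℝ => Real.log (1 + s)) (1 / (1 + s)) s :=
          ((hasDerivAt_id s).const_add 1).log (by positivity)
        exact a1.add ((hg1 s hs).const_mul _)
      have h2 : deriv (fun s : ℝ => Real.log (1 + s) + ee * expNegInvGlue s) =ᶠ[𝓝 t]
          fun s => 1 / (1 + s) + ee * (Real.exp (-s⁻¹) * (s ^ 2)⁻¹) := by
        filter_upwards [lt_mem_nhds h0] with s hs
        exact (h1 s hs).deriv
      have h3 : HasDerivAt (fun s : ℝ => 1 / (1 + s) + ee * (Real.exp (-s⁻¹) * (s ^ 2)⁻¹))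
          (-1 / (1 + t) ^ 2 + ee * ((Real.exp (-t⁻¹) * (t ^ 2)⁻¹) * (t ^ 2)⁻¹ +
            Real.exp (-t⁻¹) * (-(2 * t) / (t ^ 2) ^ 2))) t := by
        have a1 : HasDerivAt (fun s : ℝ => 1 / (1 + s)) (-1 / (1 + t) ^ 2) t := by
          have h := ((hasDerivAt_id t).const_add (1 : ℝ)).inv hne
          simp only [one_div]
          exact h.congr_deriv (by simp)
        have a2 : HasDerivAt (fun s : ℝ => Real.exp (-s⁻¹)) (Real.exp (-t⁻¹) * (t ^ 2)⁻¹) t := by
          have := ((hasDerivAt_inv h0.ne').neg).exp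
          simpa using this
        have a3 : HasDerivAt (fun s : ℝ => (s ^ 2)⁻¹) (-(2 * t) / (t ^ 2) ^ 2) t := by
          have h := (hasDerivAt_pow 2 t).inv (by positivity)
          exact h.congr_deriv (by simp)
        exact a1.add ((a2.mul a3).const_mul _)
      rw [h2.deriv_eq, h3.deriv, (h1 t h0).deriv]
      have e0 : t * (-1 / (1 + t) ^ 2 + ee * ((Real.exp (-t⁻¹) * (t ^ 2)⁻¹) * (t ^ 2)⁻¹ +
            Real.exp (-t⁻¹) * (-(2 * t) / (t ^ 2) ^ 2))) +
          (1 / (1 + t) + ee * (Real.exp (-t⁻¹) * (t ^ 2)⁻¹)) =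
          1 / (1 + t) ^ 2 + ee * ((1 - t) / t ^ 3 * Real.exp (-t⁻¹)) := by
        field_simp
        ring
      rw [e0]
      have hp : 0 < 1 / (1 + t) ^ 2 := by positivity
      have hE0 := Real.exp_pos (-t⁻¹)
      have hE1 : Real.exp (-t⁻¹) ≤ 1 := Real.exp_le_one_iff.2 (by simp [h0.le])
      rcases le_or_gt t 1 with h | h
      · have : 0 ≤ (1 - t) / t ^ 3 * Real.exp (-t⁻¹) :=
          mul_nonneg (div_nonneg (by linarith) (by positivity)) hE0.le
        have h9 := mul_nonneg ee_nonneg this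
        linarith
      · have q1 : (t - 1) / t ^ 3 ≤ 4 * (1 / (1 + t) ^ 2) := by
          rw [← div_eq_mul_one_div, div_le_div_iff₀ (by positivity) (by positivity)]
          nlinarith [mul_pos h0 h0, mul_pos (mul_pos h0 h0) h0, sq_nonneg (t - 1)]
        have q2 : (t - 1) / t ^ 3 * Real.exp (-t⁻¹) ≤ (t - 1) / t ^ 3 :=
          mul_le_of_le_one_right (div_nonneg (by linarith) (by positivity)) hE1
        have q3 : (1 - t) / t ^ 3 * Real.exp (-t⁻¹) = -((t - 1) / t ^ 3 * Real.exp (-t⁻¹)) := by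
          ring
        rw [q3]
        have q4 : 0 ≤ (t - 1) / t ^ 3 * Real.exp (-t⁻¹) :=
          mul_nonneg (div_nonneg (by linarith) (by positivity)) hE0.le
        have q5 := mul_le_mul_of_nonneg_right ee_le q4
        linarith

theorem isPositive_hB : hB.IsPositive := by
  intro z
  have e1 : (fun w : ℂ => Real.log (hB.Φ (1, w))) =
      fun w : ℂ => (fun s : ℝ => Real.log (1 + s) + ee * expNegInvGlue s) (‖w‖ ^ 2) := by
    funext w
    change Real.log (Ph (1, w)) = _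
    have hE : Ef (1, w) = expNegInvGlue (‖w‖ ^ 2) := by
      unfold Ef expNegInvGlue
      by_cases hw : w = 0
      · simp [hw]
      · have : ¬ ‖w‖ ^ 2 ≤ 0 := not_le.2 (by positivity)
        simp [hw]
    have hP : Ph (1, w) = (1 + ‖w‖ ^ 2) * Real.exp (ee * expNegInvGlue (‖w‖ ^ 2)) := by
      simp [Ph, hE]
    rw [hP, Real.log_mul (by positivity) (Real.exp_pos _).ne', Real.log_exp]
  have e2 : (fun w : ℂ => Real.log (hB.Φ (w, 1))) =
      fun w : ℂ => (fun s : ℝ => Real.log (1 + s) + ee * Real.exp (-s)) (‖w‖ ^ 2) := by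
    funext w
    change Real.log (Ph (w, 1)) = _
    have hE : Ef (w, 1) = Real.exp (-(‖w‖ ^ 2)) := by
      simp [Ef]
    have hP : Ph (w, 1) = (1 + ‖w‖ ^ 2) * Real.exp (ee * Real.exp (-(‖w‖ ^ 2))) := by
      simp [Ph, hE, add_comm]
    rw [hP, Real.log_mul (by positivity) (Real.exp_pos _).ne', Real.log_exp]
  rw [e1, e2]
  obtain ⟨c1, p1⟩ := pos_F1 (‖z‖ ^ 2) (by positivity)
  obtain ⟨c2, p2⟩ := pos_F2 (‖z‖ ^ 2) (by positivity)
  rw [laplacian_radial c1, laplacian_radial c2]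
  exact ⟨by linarith, by linarith⟩

theorem not_isRealAnalytic_hB (h0 : 0 < ee) : ¬ hB.IsRealAnalytic := by
  intro hR
  have hA := hR {v | v.1 ≠ 0} (fun v => v.1) (isOpen_ne_fun continuous_fst continuous_const)
    (fun v hv h0 => hv (by rw [h0]; rfl))
    (fun c hc v hv => by
      show (c • v).1 ≠ 0
      simpa [hc] using hv)
    differentiable_fst.differentiableOn
    (fun c hc v hv => by simp)
    (fun v hv => hv)
  have h1 : AnalyticAt ℝ (fun v : ℂ × ℂ => ‖v.1‖ ^ 2 / hB.Φ v) ((1 : ℂ), ((0 : ℝ) : ℂ)) :=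
    hA _ (by simp)
  have h2 : AnalyticAt ℝ (fun x : ℝ => ((1 : ℂ), (x : ℂ))) 0 :=
    analyticAt_const.prod (Complex.ofRealCLM.analyticAt 0)
  have h3 : AnalyticAt ℝ (fun x : ℝ => ‖(1 : ℂ)‖ ^ 2 / Ph ((1 : ℂ), (x : ℂ))) 0 :=
    AnalyticAt.fun_comp (g := fun v : ℂ × ℂ => ‖v.1‖ ^ 2 / hB.Φ v)
      (f := fun x : ℝ => ((1 : ℂ), (x : ℂ))) h1 h2
  have hne : ∀ x : ℝ, ((1 : ℂ), (x : ℂ)) ≠ 0 := fun x h => by
    have := congrArg Prod.fst h
    simp at this
  have h4 : AnalyticAt ℝ (fun x : ℝ => Real.log (‖(1 : ℂ)‖ ^ 2 / Ph ((1 : ℂ), (x : ℂ)))) 0 :=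
    h3.log (by
      have := Ph_pos (hne 0)
      simp only [norm_one, one_pow]
      positivity)
  have h5 : AnalyticAt ℝ (fun x : ℝ => Real.log (1 + x ^ 2)) 0 := by
    apply AnalyticAt.log
    · fun_prop
    · norm_num
  have h6 : AnalyticAt ℝ (fun x : ℝ => -ee⁻¹ * (Real.log (‖(1 : ℂ)‖ ^ 2 /
      Ph ((1 : ℂ), (x : ℂ))) + Real.log (1 + x ^ 2))) 0 :=
    analyticAt_const.mul (h4.add h5)
  have h7 : (fun x : ℝ => -ee⁻¹ * (Real.log (‖(1 : ℂ)‖ ^ 2 / Ph ((1 : ℂ), (x : ℂ))) +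
      Real.log (1 + x ^ 2))) = fun x : ℝ => Ef ((1 : ℂ), (x : ℂ)) := by
    funext x
    have hp : (0:ℝ) < 1 + x ^ 2 := by positivity
    simp only [Ph, norm_one, one_pow, Complex.norm_real, Real.norm_eq_abs, sq_abs]
    rw [Real.log_div one_ne_zero (by positivity), Real.log_mul hp.ne' (Real.exp_pos _).ne',
      Real.log_exp, Real.log_one]
    have h0' : ee ≠ 0 := h0.ne'
    field_simp
    ring
  rw [h7] at h6
  have hEf : ∀ x : ℝ, x ≠ 0 → Ef ((1 : ℂ), (x : ℂ)) = Real.exp (-(x ^ 2)⁻¹) := by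
    intro x hx
    simp [Ef, hx]
  have hnz : ¬ ∀ᶠ x : ℝ in 𝓝 0, Ef ((1 : ℂ), (x : ℂ)) = 0 := by
    intro h
    have h8 : ∀ᶠ x : ℝ in 𝓝[≠] 0, Ef ((1 : ℂ), (x : ℂ)) = 0 := h.filter_mono nhdsWithin_le_nhds
    obtain ⟨x, hx, hx0⟩ := (h8.and self_mem_nhdsWithin).exists
    rw [hEf x hx0] at hx
    exact (Real.exp_pos _).ne' hx
  obtain ⟨n, g, hg, hg0, hgn⟩ := h6.exists_eventuallyEq_pow_smul_nonzero_iff.mpr hnz
  have hsq : Filter.Tendsto (fun x : ℝ => x ^ 2) (𝓝[≠] 0) (𝓝[>] 0) := by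
    apply tendsto_nhdsWithin_iff.mpr
    constructor
    · have : Filter.Tendsto (fun x : ℝ => x ^ 2) (𝓝 0) (𝓝 (0 ^ 2)) :=
        (continuous_pow 2).tendsto 0
      rw [zero_pow two_ne_zero] at this
      exact this.mono_left nhdsWithin_le_nhds
    · filter_upwards [self_mem_nhdsWithin] with x hx
      have : x ≠ 0 := hx
      show 0 < x ^ 2
      positivity
  have hinv : Filter.Tendsto (fun x : ℝ => (x ^ 2)⁻¹) (𝓝[≠] 0) Filter.atTop :=
    tendsto_inv_nhdsGT_zero.comp hsq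
  have hlim := (Real.tendsto_pow_mul_exp_neg_atTop_nhds_zero n).comp hinv
  have hpow : Filter.Tendsto (fun x : ℝ => x ^ n) (𝓝[≠] 0) (𝓝 (0 ^ n)) :=
    ((continuous_pow n).tendsto 0).mono_left nhdsWithin_le_nhds
  have hprod := hpow.mul hlim
  rw [mul_zero] at hprod
  have hgt : Filter.Tendsto g (𝓝[≠] 0) (𝓝 0) := by
    refine hprod.congr' ?_
    have h9 : ∀ᶠ x : ℝ in 𝓝[≠] 0, Ef ((1 : ℂ), (x : ℂ)) = (x - 0) ^ n • g x :=
      hgn.filter_mono nhdsWithin_le_nhds
    filter_upwards [h9, self_mem_nhdsWithin] with x hx hx0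
    have hx1 : x ≠ 0 := hx0
    rw [hEf x hx1, sub_zero, smul_eq_mul] at hx
    simp only [Function.comp]
    rw [hx]
    have h10 : x ^ n * (((x ^ 2)⁻¹) ^ n * (x ^ n * g x)) = ((x ^ 2) ^ n * ((x ^ 2)⁻¹) ^ n) * g x := by
      ring
    rw [h10, ← mul_pow, mul_inv_cancel₀ (pow_ne_zero 2 hx1), one_pow, one_mul]
  have hgc : Filter.Tendsto g (𝓝[≠] 0) (𝓝 (g 0)) :=
    hg.continuousAt.tendsto.mono_left nhdsWithin_le_nhds
  exact hg0 (tendsto_nhds_unique hgc hgt)

/-- The squared norms of the monomials. -/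
def hm (k m : ℕ) : ℝ := ∫ z : ℂ, ‖z‖ ^ (2 * m) / Ph (1, z) ^ k / (1 + ‖z‖ ^ 2) ^ 2

theorem j9293_Ph_ge (z : ℂ) : 1 + ‖z‖ ^ 2 ≤ Ph (1, z) := by
  have hE : 0 ≤ Ef (1, z) := by
    unfold Ef
    split_ifs
    · exact le_rfl
    · exact (Real.exp_pos _).le
  have h1 : 1 ≤ Real.exp (ee * Ef (1, z)) := Real.one_le_exp (mul_nonneg ee_nonneg hE)
  have h2 : Ph (1, z) = (1 + ‖z‖ ^ 2) * Real.exp (ee * Ef (1, z)) := by
    unfold Ph
    simp
  rw [h2]
  have h3 : 0 ≤ 1 + ‖z‖ ^ 2 := by positivity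
  nlinarith

theorem j9293_Ph_cont : Continuous (fun z : ℂ => Ph (1, z)) := by
  have h1 : Continuous (fun z : ℂ => ((1 : ℂ), z)) := by fun_prop
  exact contDiffOn_Ph.continuousOn.comp_continuous h1 (fun z => by
    intro h
    have := congrArg Prod.fst h
    simp at this)

theorem j9293_Ph_rot {c z : ℂ} (hc : ‖c‖ = 1) : Ph (1, c * z) = Ph (1, z) := by
  have hc0 : c ≠ 0 := by
    rintro rfl
    simp at hc
  unfold Ph Ef
  simp only [norm_mul, hc, one_mul, mul_eq_zero, hc0, false_or]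

theorem j9293_cont (k n : ℕ) :
    Continuous (fun z : ℂ => ‖z‖ ^ n / Ph (1, z) ^ k / (1 + ‖z‖ ^ 2) ^ 2) := by
  have h1 := j9293_Ph_cont
  refine Continuous.div (Continuous.div (by fun_prop) (h1.pow k) fun z => ?_) (by fun_prop)
    fun z => ?_
  · have := j9293_Ph_ge z
    have h2 : 0 < Ph (1, z) := by
      have : 0 ≤ ‖z‖ ^ 2 := by positivity
      linarith
    positivity
  · positivity

theorem j9293_nonneg (k n : ℕ) (z : ℂ) :
    0 ≤ ‖z‖ ^ n / Ph (1, z) ^ k / (1 + ‖z‖ ^ 2) ^ 2 := by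
  have h2 : 0 ≤ Ph (1, z) := by
    have := j9293_Ph_ge z
    have : 0 ≤ ‖z‖ ^ 2 := by positivity
    linarith
  positivity

theorem integrable_hm {k m : ℕ} (h : m ≤ k) :
    Integrable (fun z : ℂ => ‖z‖ ^ (2 * m) / Ph (1, z) ^ k / (1 + ‖z‖ ^ 2) ^ 2) := by
  refine j9293_w_integrable.mono' (j9293_cont k (2 * m)).aestronglyMeasurable
    (Filter.Eventually.of_forall fun z => ?_)
  rw [Real.norm_of_nonneg (j9293_nonneg k (2 * m) z)]
  have h0 : (0 : ℝ) < 1 + ‖z‖ ^ 2 := by positivity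
  have h1 := j9293_Ph_ge z
  have hP : 0 < Ph (1, z) := h0.trans_le h1
  have h2 : ‖z‖ ^ (2 * m) ≤ Ph (1, z) ^ k := by
    calc ‖z‖ ^ (2 * m) = (‖z‖ ^ 2) ^ m := by rw [pow_mul]
      _ ≤ (1 + ‖z‖ ^ 2) ^ m := pow_le_pow_left₀ (by positivity) (by linarith) m
      _ ≤ (1 + ‖z‖ ^ 2) ^ k := pow_le_pow_right₀ (by nlinarith [sq_nonneg ‖z‖]) h
      _ ≤ Ph (1, z) ^ k := pow_le_pow_left₀ h0.le h1 k
  apply div_le_div_of_nonneg_right _ (by positivity)
  rw [div_le_one (by positivity)]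
  exact h2

theorem j9293_cast (k : ℕ) (z : ℂ) : ((Ph (1, z) : ℂ) ^ k) = ((Ph (1, z) ^ k : ℝ) : ℂ) := by
  push_cast; rfl

theorem j9293_norm (k m m' : ℕ) (z : ℂ) :
    ‖mono k m (1, z) * conj (mono k m' (1, z)) / (Ph (1, z) : ℂ) ^ k /
      (1 + (‖z‖ : ℂ) ^ 2) ^ 2‖ = ‖z‖ ^ m * ‖z‖ ^ m' / Ph (1, z) ^ k / (1 + ‖z‖ ^ 2) ^ 2 := by
  have h0 : (0 : ℝ) < 1 + ‖z‖ ^ 2 := by positivity
  have hP : 0 < Ph (1, z) := h0.trans_le (j9293_Ph_ge z)
  rw [j9293_mono_eq, j9293_mono_eq, j9293_cast, j9293_cast2, norm_div, norm_div, norm_mul,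
    Complex.norm_real, Complex.norm_real, RCLike.norm_conj, norm_pow, norm_pow,
    Real.norm_of_nonneg (by positivity), Real.norm_of_nonneg (by positivity)]

theorem integrable_mono {k m m' : ℕ} (h : m ≤ k) (h' : m' ≤ k) :
    Integrable (fun z : ℂ => mono k m (1, z) * conj (mono k m' (1, z)) / (Ph (1, z) : ℂ) ^ k /
      (1 + (‖z‖ : ℂ) ^ 2) ^ 2) := by
  have hI := (integrable_hm h).add (integrable_hm h')
  refine hI.mono' ?_ (Filter.Eventually.of_forall fun z => ?_)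
  · have hc : Continuous (fun z : ℂ => mono k m (1, z) * conj (mono k m' (1, z)) /
        (Ph (1, z) : ℂ) ^ k / (1 + (‖z‖ : ℂ) ^ 2) ^ 2) := by
      simp only [j9293_mono_eq, j9293_cast2]
      have h1 : Continuous (fun z : ℂ => (Ph (1, z) : ℂ)) :=
        Complex.continuous_ofReal.comp j9293_Ph_cont
      refine Continuous.div (Continuous.div ?_ (h1.pow k) fun z => ?_) ?_ fun z => ?_
      · exact (continuous_id.pow m).mul (Complex.continuous_conj.comp (continuous_id.pow m'))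
      · have h0 : (0 : ℝ) < 1 + ‖z‖ ^ 2 := by positivity
        have hP : 0 < Ph (1, z) := h0.trans_le (j9293_Ph_ge z)
        exact pow_ne_zero k (by exact_mod_cast hP.ne')
      · exact Complex.continuous_ofReal.comp (by fun_prop)
      · have h0 : (0 : ℝ) < (1 + ‖z‖ ^ 2) ^ 2 := by positivity
        exact_mod_cast h0.ne'
    exact hc.aestronglyMeasurable
  · rw [j9293_norm]
    have h0 : (0 : ℝ) < 1 + ‖z‖ ^ 2 := by positivity
    have hP : 0 < Ph (1, z) := h0.trans_le (j9293_Ph_ge z)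
    simp only [Pi.add_apply]
    rw [← add_div, ← add_div]
    apply div_le_div_of_nonneg_right _ (by positivity)
    apply div_le_div_of_nonneg_right _ (by positivity)
    have h1 : ‖z‖ ^ (2 * m) = (‖z‖ ^ m) ^ 2 := by rw [← pow_mul, mul_comm]
    have h2 : ‖z‖ ^ (2 * m') = (‖z‖ ^ m') ^ 2 := by rw [← pow_mul, mul_comm]
    rw [h1, h2]
    nlinarith [sq_nonneg (‖z‖ ^ m - ‖z‖ ^ m'), sq_nonneg (‖z‖ ^ m), sq_nonneg (‖z‖ ^ m')]

theorem hm_pos {k m : ℕ} (h : m ≤ k) : 0 < hm k m := by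
  unfold hm
  rw [integral_pos_iff_support_of_nonneg (fun z => j9293_nonneg k (2 * m) z) (integrable_hm h)]
  refine (j9293_cont k (2 * m)).isOpen_support.measure_pos volume ⟨1, ?_⟩
  rw [Function.mem_support]
  have h0 : (0 : ℝ) < 1 + ‖(1 : ℂ)‖ ^ 2 := by positivity
  have hP : 0 < Ph (1, 1) := h0.trans_le (j9293_Ph_ge 1)
  have h1 : (0 : ℝ) < ‖(1 : ℂ)‖ ^ (2 * m) / Ph (1, 1) ^ k / (1 + ‖(1 : ℂ)‖ ^ 2) ^ 2 := by
    rw [norm_one, one_pow]
    positivity
  exact h1.ne'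

theorem inner_mono {k m m' : ℕ} (h : m ≤ k) (h' : m' ≤ k) :
    hB.inner k (mono k m) (mono k m') = if m = m' then (hm k m : ℂ) else 0 := by
  have hdef : hB.inner k (mono k m) (mono k m') =
      ∫ z : ℂ, mono k m (1, z) * conj (mono k m' (1, z)) / (Ph (1, z) : ℂ) ^ k /
        (1 + (‖z‖ : ℂ) ^ 2) ^ 2 := rfl
  rw [hdef]
  by_cases hmm : m = m'
  · subst hmm
    rw [if_pos rfl]
    unfold hm
    rw [← integral_complex_ofReal]
    refine integral_congr_ae (Filter.Eventually.of_forall fun z => ?_)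
    simp only
    have h1 : mono k m (1, z) * conj (mono k m (1, z)) = ((‖z‖ ^ (2 * m) : ℝ) : ℂ) := by
      rw [j9293_mono_eq, Complex.mul_conj, Complex.normSq_eq_norm_sq, norm_pow, ← pow_mul,
        mul_comm m 2]
    rw [h1, j9293_cast, j9293_cast2]
    push_cast
    rfl
  · rw [if_neg hmm]
    set g : ℂ → ℂ := fun z => mono k m (1, z) * conj (mono k m' (1, z)) /
      (Ph (1, z) : ℂ) ^ k / (1 + (‖z‖ : ℂ) ^ 2) ^ 2 with hg
    have hd : ((m : ℝ) - m') ≠ 0 := by
      intro h0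
      apply hmm
      have : (m : ℝ) = m' := by linarith
      exact_mod_cast this
    set θ : ℝ := Real.pi / ((m : ℝ) - m') with hθ
    have hc1 : ‖((Circle.exp θ : Circle) : ℂ)‖ = 1 := Circle.norm_coe _
    have hrot : ∀ z : ℂ, g (((Circle.exp θ : Circle) : ℂ) * z) = -g z := by
      intro z
      have hcm : (((Circle.exp θ : Circle) : ℂ)) ^ m *
          conj ((((Circle.exp θ : Circle) : ℂ)) ^ m') = -1 := by
        rw [Circle.coe_exp, ← Complex.exp_nat_mul, ← Complex.exp_nat_mul, ← Complex.exp_conj,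
          ← Complex.exp_add, ← Complex.exp_pi_mul_I]
        congr 1
        simp only [map_mul, Complex.conj_ofReal, Complex.conj_I, map_natCast]
        have h3 : ((m : ℂ) - m') ≠ 0 := by
          have : (((m : ℝ) - m' : ℝ) : ℂ) ≠ 0 := by exact_mod_cast hd
          simpa using this
        rw [hθ]
        push_cast
        field_simp
        ring
      rw [hg]
      simp only [j9293_mono_eq]
      rw [j9293_Ph_rot hc1, norm_mul, hc1, one_mul, mul_pow, mul_pow, map_mul]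
      have h4 : ((Circle.exp θ : Circle) : ℂ) ^ m * z ^ m *
          (conj (((Circle.exp θ : Circle) : ℂ) ^ m') * conj (z ^ m')) =
          -(z ^ m * conj (z ^ m')) := by
        calc _ = (((Circle.exp θ : Circle) : ℂ) ^ m *
            conj (((Circle.exp θ : Circle) : ℂ) ^ m')) * (z ^ m * conj (z ^ m')) := by ring
          _ = _ := by rw [hcm]; ring
      rw [h4]
      ring
    have hmp : MeasurePreserving (rotation (Circle.exp θ)) volume volume :=
      (rotation (Circle.exp θ)).measurePreserving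
    have hint : ∫ z, g (rotation (Circle.exp θ) z) = ∫ z, g z :=
      hmp.integral_comp (rotation (Circle.exp θ)).toHomeomorph.measurableEmbedding g
    have hint2 : ∫ z, g (rotation (Circle.exp θ) z) = -∫ z, g z := by
      rw [← integral_neg]
      refine integral_congr_ae (Filter.Eventually.of_forall fun z => ?_)
      simp only [rotation_apply]
      exact hrot z
    rw [hint2] at hint
    have : (2 : ℂ) * ∫ z, g z = 0 := by linear_combination -hint
    simpa using this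

theorem inner_sum {k : ℕ} {s t : ℂ × ℂ → ℂ} {c d : ℕ → ℂ}
    (hs : ∀ v : ℂ × ℂ, v ≠ 0 → s v = ∑ m ∈ Finset.range (k + 1), c m * mono k m v)
    (ht : ∀ v : ℂ × ℂ, v ≠ 0 → t v = ∑ m ∈ Finset.range (k + 1), d m * mono k m v) :
    hB.inner k s t = ∑ m ∈ Finset.range (k + 1), c m * conj (d m) * (hm k m : ℂ) := by
  have h1 : ∀ z : ℂ, s (1, z) * conj (t (1, z)) / (hB.Φ (1, z) : ℂ) ^ k /
      (1 + (‖z‖ : ℂ) ^ 2) ^ 2 = ∑ m ∈ Finset.range (k + 1), ∑ m' ∈ Finset.range (k + 1),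
        (c m * conj (d m')) * (mono k m (1, z) * conj (mono k m' (1, z)) / (Ph (1, z) : ℂ) ^ k /
          (1 + (‖z‖ : ℂ) ^ 2) ^ 2) := by
    intro z
    rw [hs _ (inner_sum_one_ne z), ht _ (inner_sum_one_ne z), map_sum, Finset.sum_mul_sum,
      Finset.sum_div, Finset.sum_div]
    apply Finset.sum_congr rfl
    intro m _
    rw [Finset.sum_div, Finset.sum_div]
    apply Finset.sum_congr rfl
    intro m' _
    rw [map_mul]
    show _ / (Ph (1, z) : ℂ) ^ k / _ = _
    ring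
  unfold HermitianMetric.inner
  simp_rw [h1]
  rw [integral_finsetSum]
  · apply Finset.sum_congr rfl
    intro m hm'
    rw [Finset.mem_range] at hm'
    rw [integral_finsetSum]
    · rw [Finset.sum_eq_single m]
      · rw [integral_const_mul]
        have := inner_mono (k := k) (m := m) (m' := m) (by omega) (by omega)
        rw [if_pos rfl] at this
        rw [← this]
        rfl
      · intro m' hm'' hne
        rw [Finset.mem_range] at hm''
        rw [integral_const_mul]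
        have := inner_mono (k := k) (m := m) (m' := m') (by omega) (by omega)
        rw [if_neg (Ne.symm hne)] at this
        have h2 : ∫ z : ℂ, mono k m (1, z) * conj (mono k m' (1, z)) / (Ph (1, z) : ℂ) ^ k /
          (1 + (‖z‖ : ℂ) ^ 2) ^ 2 = 0 := this
        rw [h2, mul_zero]
      · intro h
        exact absurd (Finset.mem_range.2 hm') h
    · intro m' hm''
      rw [Finset.mem_range] at hm''
      exact (integrable_mono (by omega) (by omega)).const_mul _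
  · intro m hm'
    rw [Finset.mem_range] at hm'
    apply integrable_finsetSum
    intro m' hm''
    rw [Finset.mem_range] at hm''
    exact (integrable_mono (by omega) (by omega)).const_mul _

/-- The Bergman kernel, computed from any orthonormal basis. -/
theorem kernel_eq {k : ℕ} {ι : Type} [Fintype ι] [DecidableEq ι] {s : ι → ℂ × ℂ → ℂ}
    (hs : hB.IsOrthonormalBasis k s) {v w : ℂ × ℂ} (hv : v ≠ 0) (hw : w ≠ 0) :
    ∑ i, s i v * conj (s i w) =
      ∑ m ∈ Finset.range (k + 1), mono k m v * conj (mono k m w) / (hm k m : ℂ) := by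
  have h1 : ∀ i, ∃ c : ℕ → ℂ, ∀ v : ℂ × ℂ, v ≠ 0 →
      s i v = ∑ m ∈ Finset.range (k + 1), c m * mono k m v := fun i => (hs.isSection i).eq_sum
  choose c hc using h1
  have h2 : ∀ i j, ∑ m ∈ Finset.range (k + 1), c i m * conj (c j m) * (hm k m : ℂ) =
      if i = j then 1 else 0 := by
    intro i j
    rw [← inner_sum (hc i) (hc j)]
    exact hs.orthonormal i j
  have h3 : ∀ m : Fin (k + 1), ∃ d : ι → ℂ, ∀ v, v ≠ 0 → mono k m v = ∑ i, d i * s i v :=
    fun m => hs.spans _ (isSection_mono (by omega))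
  choose d hd using h3
  -- D C = 1
  have h4 : ∀ m m' : Fin (k + 1), ∑ i, d m i * c i m' = if m = m' then 1 else 0 := by
    intro m m'
    have e1 : ∀ v : ℂ × ℂ, v ≠ 0 → mono k m v =
        ∑ j ∈ Finset.range (k + 1), (∑ i, d m i * c i j) * mono k j v := by
      intro v hv
      rw [hd m v hv]
      simp_rw [Finset.sum_mul]
      rw [Finset.sum_comm]
      apply Finset.sum_congr rfl
      intro i _
      rw [hc i v hv, Finset.mul_sum]
      apply Finset.sum_congr rfl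
      intro j _
      ring
    have e2 := inner_sum (k := k) e1 (fun v _ => kernel_eq_mono (m := m') (by omega) v)
    have e3 := inner_mono (k := k) (m := (m : ℕ)) (m' := (m' : ℕ)) (by omega) (by omega)
    rw [e3, Finset.sum_eq_single (m' : ℕ)] at e2
    · have hpos := hm_pos (k := k) (m := (m' : ℕ)) (by omega)
      have hne : (hm k m' : ℂ) ≠ 0 := by exact_mod_cast hpos.ne'
      simp only [if_true, map_one, mul_one] at e2
      by_cases hmm : m = m'
      · subst hmm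
        rw [if_pos rfl] at e2 ⊢
        have := mul_right_cancel₀ hne (show (1 : ℂ) * (hm k m : ℂ) =
          (∑ i, d m i * c i m) * (hm k m : ℂ) by rw [one_mul]; exact e2)
        exact this.symm
      · have hmm' : (m : ℕ) ≠ (m' : ℕ) := fun h => hmm (Fin.ext h)
        rw [if_neg hmm'] at e2
        rw [if_neg hmm]
        rcases mul_eq_zero.1 e2.symm with h | h
        · exact h
        · exact absurd h hne
    · intro b _ hb
      rw [if_neg hb]; simp
    · intro h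
      exact absurd (Finset.mem_range.2 m'.2) h
  let Cm : Matrix ι (Fin (k + 1)) ℂ := fun i m => c i m
  let Dm : Matrix (Fin (k + 1)) ι ℂ := fun m i => d m i
  let Em : Matrix (Fin (k + 1)) ι ℂ := fun m i => (hm k m : ℂ) * conj (c i m)
  have hCE : Cm * Em = 1 := by
    ext i j
    rw [Matrix.mul_apply, Matrix.one_apply, ← h2 i j, Finset.sum_range]
    apply Finset.sum_congr rfl
    intro m _
    simp only [Cm, Em]
    ring
  have hDC : Dm * Cm = 1 := by
    ext m m'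
    rw [Matrix.mul_apply, Matrix.one_apply, ← h4 m m']
  have hDE : Dm = Em := by
    calc Dm = Dm * (Cm * Em) := by rw [hCE, Matrix.mul_one]
      _ = (Dm * Cm) * Em := by rw [Matrix.mul_assoc]
      _ = Em := by rw [hDC, Matrix.one_mul]
  have hEC : Em * Cm = 1 := by rw [← hDE]; exact hDC
  have h5 : ∀ m m' : Fin (k + 1), ∑ i, c i m * conj (c i m') =
      if m = m' then 1 / (hm k m : ℂ) else 0 := by
    intro m m'
    have e1 := congrFun (congrFun hEC m') m
    rw [Matrix.mul_apply, Matrix.one_apply] at e1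
    simp only [Cm, Em] at e1
    have hpos := hm_pos (k := k) (m := (m' : ℕ)) (by omega)
    have hne : (hm k m' : ℂ) ≠ 0 := by exact_mod_cast hpos.ne'
    have e2 : ∑ i, (hm k m' : ℂ) * conj (c i m') * c i m =
        (hm k m' : ℂ) * ∑ i, c i m * conj (c i m') := by
      rw [Finset.mul_sum]
      apply Finset.sum_congr rfl
      intro i _
      ring
    rw [e2] at e1
    by_cases hmm : m = m'
    · subst hmm
      rw [if_pos rfl] at e1 ⊢
      rw [eq_div_iff hne, mul_comm]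
      exact e1
    · rw [if_neg (fun h => hmm h.symm)] at e1
      rw [if_neg hmm]
      rcases mul_eq_zero.1 e1 with h | h
      · exact absurd h hne
      · exact h
  have h6 : ∀ i, s i v * conj (s i w) = ∑ m : Fin (k + 1), ∑ m' : Fin (k + 1),
      (c i m * conj (c i m')) * (mono k m v * conj (mono k m' w)) := by
    intro i
    rw [hc i v hv, hc i w hw, map_sum, Finset.sum_range, Finset.sum_range, Finset.sum_mul_sum]
    apply Finset.sum_congr rfl
    intro m _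
    apply Finset.sum_congr rfl
    intro m' _
    rw [map_mul]
    ring
  simp_rw [h6]
  rw [Finset.sum_comm, Finset.sum_range]
  apply Finset.sum_congr rfl
  intro m _
  rw [Finset.sum_comm]
  simp_rw [← Finset.sum_mul, h5]
  rw [Finset.sum_eq_single m]
  · rw [if_pos rfl]; ring
  · intro b _ hb
    rw [if_neg (Ne.symm hb), zero_mul]
  · intro h
    exact absurd (Finset.mem_univ m) h

theorem exists_onb (k : ℕ) : ∃ s : Fin (k + 1) → ℂ × ℂ → ℂ, hB.IsOrthonormalBasis k s := by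
  have hpos : ∀ m : Fin (k + 1), 0 < hm k m := fun m => hm_pos (by omega)
  have hsq : ∀ m : Fin (k + 1), (√(hm k m) : ℂ) ≠ 0 := by
    intro m
    have := Real.sqrt_pos.2 (hpos m)
    exact_mod_cast this.ne'
  refine ⟨fun m v => mono k m v / (√(hm k m) : ℂ), ⟨fun m => ⟨?_, ?_⟩, fun m m' => ?_,
    fun t ht => ?_⟩⟩
  · have h := (isSection_mono (k := k) (m := (m : ℕ)) (by omega)).holomorphic
    have h2 := h.const_mul (1 / (√(hm k m) : ℂ))
    refine h2.congr (fun v _ => ?_)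
    ring
  · intro c v hc hv
    rw [(isSection_mono (k := k) (m := m) (by omega)).homog c v hc hv]
    ring
  · have e1 : ∀ m : Fin (k + 1), ∀ v : ℂ × ℂ, v ≠ 0 → mono k m v / (√(hm k m) : ℂ) =
        ∑ j ∈ Finset.range (k + 1), (if j = (m : ℕ) then 1 / (√(hm k m) : ℂ) else 0) *
          mono k j v := by
      intro m v _
      rw [Finset.sum_eq_single (m : ℕ)]
      · rw [if_pos rfl]; ring
      · intro b _ hb
        rw [if_neg hb, zero_mul]
      · intro h
        exact absurd (Finset.mem_range.2 m.2) h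
    rw [inner_sum (e1 m) (e1 m'), Finset.sum_eq_single (m : ℕ)]
    · by_cases hmm : m = m'
      · subst hmm
        rw [if_pos rfl, if_pos rfl, map_div₀, map_one, Complex.conj_ofReal]
        have h2 : (√(hm k m) : ℂ) * (√(hm k m) : ℂ) = (hm k m : ℂ) := by
          have := Real.mul_self_sqrt (hpos m).le
          exact_mod_cast this
        have h3 := hsq m
        rw [← h2]
        field_simp
      · have hmm' : (m : ℕ) ≠ (m' : ℕ) := fun h => hmm (Fin.ext h)
        rw [if_neg hmm', if_neg hmm]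
        simp
    · intro b _ hb
      rw [if_neg hb]; simp
    · intro h
      exact absurd (Finset.mem_range.2 m.2) h
  · obtain ⟨c, hc⟩ := ht.eq_sum
    refine ⟨fun m => c m * (√(hm k m) : ℂ), fun v hv => ?_⟩
    rw [hc v hv, Finset.sum_range]
    apply Finset.sum_congr rfl
    intro m _
    have h3 := hsq m
    field_simp

/-- The radial profile of the moment integrand. -/
def gP (k m : ℕ) (r : ℝ) : ℝ :=
  r ^ (2 * m) / ((1 + r ^ 2) * Real.exp (ee * (if r = 0 then 0 else Real.exp (-(1 / r ^ 2))))) ^ k /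
    (1 + r ^ 2) ^ 2

theorem gP_norm (k m : ℕ) (z : ℂ) :
    ‖z‖ ^ (2 * m) / Ph (1, z) ^ k / (1 + ‖z‖ ^ 2) ^ 2 = gP k m ‖z‖ := by
  unfold gP Ph Ef
  by_cases hz : z = 0
  · simp [hz]
  · simp [hz]

theorem hm_radial (k m : ℕ) :
    hm k m = 2 * Real.pi * ∫ y in Ioi (0 : ℝ), y * gP k m y := by
  unfold hm
  have h1 := MeasureTheory.integral_fun_norm_addHaar (volume : Measure ℂ) (gP k m)
  have h2 : (volume : Measure ℂ).real (Metric.ball 0 1) = Real.pi := by
    rw [Measure.real, Complex.volume_ball]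
    simp
  rw [h2, Complex.finrank_real_complex] at h1
  simp only [gP_norm]
  rw [h1]
  simp only [nsmul_eq_mul, smul_eq_mul]
  norm_num
  ring

/-- The moments in logarithmic coordinates. -/
theorem hm_eq {k m : ℕ} (h : m ≤ k) :
    hm k m = Real.pi * JR (ee * k / (k + 2)) ((k : ℝ) + 2) (((m : ℝ) + 1) / ((k : ℝ) + 2)) := by
  rw [hm_radial, log_subst]
  have hk : ((k : ℝ) + 2) ≠ 0 := by positivity
  have key : ∀ ρ : ℝ, Real.exp (ρ / 2) / 2 * (Real.exp (ρ / 2) * gP k m (Real.exp (ρ / 2))) =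
      1 / 2 * Real.exp (((k : ℝ) + 2) * (((m : ℝ) + 1) / ((k : ℝ) + 2) * ρ -
        uR (ee * k / (k + 2)) ρ)) := by
    intro ρ
    have hne : Real.exp (ρ / 2) ≠ 0 := (Real.exp_pos _).ne'
    have hsq : Real.exp (ρ / 2) ^ 2 = Real.exp ρ := by
      rw [← Real.exp_nat_mul]; congr 1; push_cast; ring
    have hpow : Real.exp (ρ / 2) ^ (2 * m) = Real.exp (m * ρ) := by
      rw [pow_mul, hsq, ← Real.exp_nat_mul]
    have hinv : 1 / Real.exp ρ = Real.exp (-ρ) := by rw [Real.exp_neg, one_div]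
    have hpos : 0 < 1 + Real.exp ρ := by positivity
    unfold gP
    rw [if_neg hne, hpow, hsq, hinv]
    set A := Real.exp (-Real.exp (-ρ)) with hA
    have e1 : ((k : ℝ) + 2) * (((m : ℝ) + 1) / ((k : ℝ) + 2) * ρ -
        uR (ee * k / (k + 2)) ρ) =
        ((m : ℝ) * ρ + ρ) - ((k + 2 : ℕ) * Real.log (1 + Real.exp ρ) + (k : ℝ) * (ee * A)) := by
      unfold uR
      rw [← hA]
      push_cast
      field_simp
    rw [e1, Real.exp_sub, Real.exp_add, Real.exp_add,
      Real.exp_nat_mul (Real.log (1 + Real.exp ρ)) (k + 2), Real.exp_log hpos,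
      Real.exp_nat_mul (ee * A) k, mul_pow]
    have hE : Real.exp (ee * A) ≠ 0 := (Real.exp_pos _).ne'
    have e2 : Real.exp (ρ / 2) / 2 * (Real.exp (ρ / 2) * (Real.exp (m * ρ) /
        ((1 + Real.exp ρ) ^ k * Real.exp (ee * A) ^ k) / (1 + Real.exp ρ) ^ 2)) =
        (Real.exp (ρ / 2) ^ 2) / 2 * (Real.exp (m * ρ) /
        ((1 + Real.exp ρ) ^ k * Real.exp (ee * A) ^ k) / (1 + Real.exp ρ) ^ 2) := by ring
    rw [e2, hsq]
    field_simp
    ring
  simp_rw [key]
  rw [integral_const_mul]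
  unfold JR
  ring

theorem diag_int {k m : ℕ} (hmk : m ≤ k) :
    Integrable (fun ρ : ℝ => Real.exp (((k : ℝ) + 2) * (((m : ℝ) + 1) / ((k : ℝ) + 2) * ρ -
      uR (ee * k / (k + 2)) ρ))) := by
  by_contra hni
  have hpos := hm_pos hmk
  rw [hm_eq hmk, JR, integral_undef hni, mul_zero] at hpos
  exact lt_irrefl _ hpos

theorem diag_e (k : ℕ) : 0 ≤ (ee * k / (k + 2) : ℝ) ∧ (ee * k / (k + 2) : ℝ) ≤ 1 / 1000 := by
  have hk0 : (0 : ℝ) ≤ k := Nat.cast_nonneg _
  have hee : 0 ≤ ee := ee_nonneg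
  refine ⟨by positivity, ?_⟩
  rw [div_le_iff₀ (by positivity)]
  nlinarith [mul_le_mul_of_nonneg_right ee_le hk0]

theorem diag_L1 {k m : ℕ} (hk : 1 ≤ k) (hmk : m ≤ k) (a : ℝ) :
    Real.exp (m * a - (k + 2) * uR (ee * k / (k + 2)) a - 6) / k ≤
      JR (ee * k / (k + 2)) ((k : ℝ) + 2) (((m : ℝ) + 1) / ((k : ℝ) + 2)) := by
  obtain ⟨he0, he1⟩ := diag_e k
  have hk1 : (1 : ℝ) ≤ k := by exact_mod_cast hk
  have hk0 : (0 : ℝ) < k := by linarith
  set e : ℝ := ee * k / (k + 2) with he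
  have hpos : 0 < Real.exp a + 1 / k := by positivity
  have hb : Real.exp (Real.log (Real.exp a + 1 / k)) = Real.exp a + 1 / k := Real.exp_log hpos
  have hab : a ≤ Real.log (Real.exp a + 1 / k) := by
    rw [Real.le_log_iff_exp_le hpos]
    have : 0 < 1 / (k : ℝ) := by positivity
    linarith
  have key := diag_low _ (diag_int hmk) (fun ρ => (Real.exp_pos _).le) a
    (Real.log (Real.exp a + 1 / k)) (Real.exp (m * a - (k + 2) * uR e a - 6)) hab (by
      intro ρ h1 h2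
      rw [← Real.exp_add]
      apply Real.exp_le_exp.mpr
      have h3 := diag_P1 he0 he1 h1
      have h4 : Real.exp ρ ≤ Real.exp a + 1 / k := by
        rw [← hb]
        exact Real.exp_le_exp.mpr h2
      have h5 : ((k : ℝ) + 2) * (uR e ρ - uR e a) ≤ 6 := by
        have h6 : uR e ρ - uR e a ≤ 2 * (1 / k) := by linarith
        calc ((k : ℝ) + 2) * (uR e ρ - uR e a) ≤ (k + 2) * (2 * (1 / k)) :=
              mul_le_mul_of_nonneg_left h6 (by positivity)
          _ = 2 + 4 * (1 / k) := by field_simp; ring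
          _ ≤ 2 + 4 * 1 := by
              have : 1 / (k : ℝ) ≤ 1 := by rw [div_le_one hk0]; exact hk1
              linarith
          _ = 6 := by norm_num
      have h6 : (m : ℝ) * a ≤ m * ρ := mul_le_mul_of_nonneg_left h1 (Nat.cast_nonneg _)
      have h7 : ((k : ℝ) + 2) * (((m : ℝ) + 1) / ((k : ℝ) + 2) * ρ - uR e ρ) =
          (m + 1) * ρ - (k + 2) * uR e ρ := by
        field_simp
      rw [h7]
      linarith)
  rw [hb] at key
  have h8 : Real.exp (m * a - (k + 2) * uR e a - 6) * (Real.exp a + 1 / k - Real.exp a) =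
      Real.exp (m * a - (k + 2) * uR e a - 6) / k := by ring
  rw [h8] at key
  exact key

theorem diag_L2 {k m : ℕ} (hk : 1 ≤ k) (hmk : m ≤ k) (b : ℝ) :
    Real.exp ((m + 2) * b - (k + 2) * uR (ee * k / (k + 2)) b - 3) / k ≤
      JR (ee * k / (k + 2)) ((k : ℝ) + 2) (((m : ℝ) + 1) / ((k : ℝ) + 2)) := by
  obtain ⟨he0, he1⟩ := diag_e k
  have hk1 : (1 : ℝ) ≤ k := by exact_mod_cast hk
  have hmk' : (m : ℝ) ≤ k := by exact_mod_cast hmk
  have hk0 : (0 : ℝ) < k := by linarith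
  set e : ℝ := ee * k / (k + 2) with he
  have hpos : 0 < Real.exp (-b) + 1 / k := by positivity
  have hb : Real.exp (Real.log (Real.exp (-b) + 1 / k)) = Real.exp (-b) + 1 / k :=
    Real.exp_log hpos
  have hab : -b ≤ Real.log (Real.exp (-b) + 1 / k) := by
    rw [Real.le_log_iff_exp_le hpos]
    have : 0 < 1 / (k : ℝ) := by positivity
    linarith
  have hint := diag_int hmk
  have key := diag_low _ hint.comp_neg (fun ρ => (Real.exp_pos _).le) (-b)
    (Real.log (Real.exp (-b) + 1 / k)) (Real.exp ((m + 2) * b - (k + 2) * uR e b - 3)) hab (by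
      intro σ h1 h2
      rw [← Real.exp_add]
      apply Real.exp_le_exp.mpr
      have h3 := diag_P2 he0 (ρ := -σ) (b := b) (by linarith)
      rw [neg_neg] at h3
      have h4 : Real.exp σ ≤ Real.exp (-b) + 1 / k := by
        rw [← hb]
        exact Real.exp_le_exp.mpr h2
      have h5 : ((k : ℝ) + 2) * ((b - uR e b) - (-σ - uR e (-σ))) ≤ 3 := by
        have h6 : (b - uR e b) - (-σ - uR e (-σ)) ≤ 1 / k := by linarith
        calc ((k : ℝ) + 2) * ((b - uR e b) - (-σ - uR e (-σ))) ≤ (k + 2) * (1 / k) :=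
              mul_le_mul_of_nonneg_left h6 (by positivity)
          _ = 1 + 2 * (1 / k) := by field_simp
          _ ≤ 1 + 2 * 1 := by
              have : 1 / (k : ℝ) ≤ 1 := by rw [div_le_one hk0]; exact hk1
              linarith
          _ = 3 := by norm_num
      have h6 : ((k : ℝ) - m) * (-b) ≤ (k - m) * σ := mul_le_mul_of_nonneg_left h1 (by linarith)
      have h7 : ((k : ℝ) + 2) * (((m : ℝ) + 1) / ((k : ℝ) + 2) * (-σ) - uR e (-σ)) =
          (m + 1) * (-σ) - (k + 2) * uR e (-σ) := by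
        field_simp
      rw [h7]
      linarith)
  rw [hb] at key
  have h8 : Real.exp ((m + 2) * b - (k + 2) * uR e b - 3) * (Real.exp (-b) + 1 / k - Real.exp (-b)) =
      Real.exp ((m + 2) * b - (k + 2) * uR e b - 3) / k := by ring
  rw [h8, integral_neg_eq_self (fun ρ : ℝ => Real.exp (((k : ℝ) + 2) *
    (((m : ℝ) + 1) / ((k : ℝ) + 2) * ρ - uR e ρ)))] at key
  exact key

/-- the bound in logarithmic coordinates -/
theorem diag_A {k m : ℕ} (hk : 1 ≤ k) (hmk : m ≤ k) (ρ : ℝ) :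
    Real.exp (m * ρ - k * (Real.log (1 + Real.exp ρ) + ee * Real.exp (-Real.exp (-ρ)))) ≤
      4 * Real.exp 6 * k * hm k m := by
  have hk1 : (1 : ℝ) ≤ k := by exact_mod_cast hk
  have hk0 : (0 : ℝ) < k := by linarith
  have hT : 0 < Real.exp ρ := Real.exp_pos _
  have hJ1 := diag_L1 hk hmk ρ
  have hJ2 := diag_L2 hk hmk ρ
  set J := JR (ee * k / (k + 2)) ((k : ℝ) + 2) (((m : ℝ) + 1) / ((k : ℝ) + 2)) with hJ
  have hJhm : J ≤ hm k m := by
    rw [hm_eq hmk, ← hJ]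
    have hJ0 : 0 ≤ J := le_trans (by positivity) hJ1
    have := Real.pi_gt_three
    nlinarith
  have hu : ((k : ℝ) + 2) * uR (ee * k / (k + 2)) ρ =
      (k + 2) * Real.log (1 + Real.exp ρ) + k * ee * Real.exp (-Real.exp (-ρ)) := by
    unfold uR
    field_simp
  have hlog : Real.exp (2 * Real.log (1 + Real.exp ρ)) = (1 + Real.exp ρ) ^ 2 := by
    rw [two_mul, Real.exp_add, Real.exp_log (by positivity)]
    ring
  rw [div_le_iff₀ hk0, hu] at hJ1 hJ2
  have hfin : ∀ R : ℝ, R ≤ 4 * Real.exp 6 * (J * k) → R ≤ 4 * Real.exp 6 * k * hm k m := by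
    intro R hR
    refine hR.trans ?_
    have : J * k ≤ hm k m * k := mul_le_mul_of_nonneg_right hJhm hk0.le
    have h6 : 0 < 4 * Real.exp 6 := by positivity
    nlinarith
  apply hfin
  rcases le_total ρ 0 with h0 | h0
  · have hT1 : Real.exp ρ ≤ 1 := Real.exp_le_one_iff.mpr h0
    have e1 : Real.exp (m * ρ - k * (Real.log (1 + Real.exp ρ) +
        ee * Real.exp (-Real.exp (-ρ)))) =
        Real.exp (m * ρ - ((k + 2) * Real.log (1 + Real.exp ρ) +
          k * ee * Real.exp (-Real.exp (-ρ))) - 6) * Real.exp 6 * (1 + Real.exp ρ) ^ 2 := by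
      rw [← hlog, ← Real.exp_add, ← Real.exp_add]
      congr 1
      ring
    rw [e1]
    have h1 : (1 + Real.exp ρ) ^ 2 ≤ 4 := by nlinarith
    have h6 : 0 < Real.exp 6 := Real.exp_pos _
    calc _ ≤ (J * k) * Real.exp 6 * 4 := by
          apply mul_le_mul (mul_le_mul_of_nonneg_right hJ1 h6.le) h1 (by positivity)
          have : 0 ≤ J * k := le_trans (Real.exp_pos _).le hJ1
          positivity
      _ = 4 * Real.exp 6 * (J * k) := by ring
  · have hS1 : Real.exp (-ρ) ≤ 1 := Real.exp_le_one_iff.mpr (by linarith)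
    have e0 : (1 + Real.exp (-ρ)) ^ 2 = (1 + Real.exp ρ) ^ 2 * Real.exp (-(2 * ρ)) := by
      have h1 : Real.exp (-(2 * ρ)) = Real.exp (-ρ) ^ 2 := by
        rw [sq, ← Real.exp_add]
        congr 1
        ring
      have h2 : Real.exp ρ * Real.exp (-ρ) = 1 := by
        rw [← Real.exp_add, add_neg_cancel, Real.exp_zero]
      rw [h1, ← mul_pow, add_mul, h2]
      ring
    have e1 : Real.exp (m * ρ - k * (Real.log (1 + Real.exp ρ) +
        ee * Real.exp (-Real.exp (-ρ)))) =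
        Real.exp ((m + 2) * ρ - ((k + 2) * Real.log (1 + Real.exp ρ) +
          k * ee * Real.exp (-Real.exp (-ρ))) - 3) * Real.exp 3 * (1 + Real.exp (-ρ)) ^ 2 := by
      rw [e0, ← hlog, ← Real.exp_add, ← Real.exp_add, ← Real.exp_add]
      congr 1
      ring
    rw [e1]
    have hS : 0 < Real.exp (-ρ) := Real.exp_pos _
    have h1 : (1 + Real.exp (-ρ)) ^ 2 ≤ 4 := by nlinarith
    have h3 : 0 < Real.exp 3 := Real.exp_pos _
    have h36 : Real.exp 3 ≤ Real.exp 6 := Real.exp_le_exp.mpr (by norm_num)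
    have hJk : 0 ≤ J * k := le_trans (Real.exp_pos _).le hJ2
    calc _ ≤ (J * k) * Real.exp 6 * 4 := by
          apply mul_le_mul (mul_le_mul hJ2 h36 h3.le hJk) h1 (by positivity)
          positivity
      _ = 4 * Real.exp 6 * (J * k) := by ring

omit [EP] in
/-- The diagonal bound. -/
theorem diag_bound : ∃ C : ℝ, 0 < C ∧ ∀ (_ : EP) (k m : ℕ), 1 ≤ k → m ≤ k → ∀ v : ℂ × ℂ, v ≠ 0 →
    ‖v.1‖ ^ (2 * (k - m)) * ‖v.2‖ ^ (2 * m) / Ph v ^ k ≤ C * k * hm k m := by
  refine ⟨4 * Real.exp 6 * Real.exp 2, by positivity, fun inst k m hk hmk v hv => ?_⟩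
  have hee : 0 ≤ ee := ee_nonneg
  have hee1 := ee_le
  have hk1 : (1 : ℝ) ≤ k := by exact_mod_cast hk
  have hk0 : (0 : ℝ) < k := by linarith
  have hpos := hm_pos hmk
  have hfin : ∀ R A : ℝ, A ≤ 4 * Real.exp 6 * k * hm k m → R ≤ A * Real.exp 2 →
      R ≤ 4 * Real.exp 6 * Real.exp 2 * k * hm k m := by
    intro R A hA hR
    refine hR.trans ?_
    have h2 : 0 < Real.exp 2 := Real.exp_pos _
    have := mul_le_mul_of_nonneg_right hA h2.le
    linarith
  have he2 : (1 : ℝ) ≤ Real.exp 2 := Real.one_le_exp (by norm_num)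
  by_cases h2 : v.2 = 0
  · have h1 : v.1 ≠ 0 := by
      intro h1
      exact hv (Prod.ext h1 h2)
    have hn1 : 0 < ‖v.1‖ := norm_pos_iff.mpr h1
    rcases Nat.eq_zero_or_pos m with hm0 | hm0
    · subst hm0
      refine hfin _ _ (diag_A hk hmk (-Real.log k)) ?_
      have hPh : Ph v = ‖v.1‖ ^ 2 := by
        unfold Ph Ef
        rw [if_pos h2, h2]
        simp
      rw [hPh, Nat.sub_zero, mul_zero, pow_zero, mul_one, pow_mul, div_self (by positivity),
        ← Real.exp_add]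
      apply Real.one_le_exp
      rw [Nat.cast_zero, zero_mul, zero_sub, neg_neg, Real.exp_neg, Real.exp_log hk0]
      have hl : Real.log (1 + (k : ℝ)⁻¹) ≤ (k : ℝ)⁻¹ := by
        have := Real.log_le_sub_one_of_pos (x := 1 + (k : ℝ)⁻¹) (by positivity)
        linarith
      have hl2 : (k : ℝ) * Real.log (1 + (k : ℝ)⁻¹) ≤ 1 := by
        calc (k : ℝ) * Real.log (1 + (k : ℝ)⁻¹) ≤ k * (k : ℝ)⁻¹ :=
              mul_le_mul_of_nonneg_left hl hk0.le
          _ = 1 := mul_inv_cancel₀ hk0.ne'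
      have hl3 : (k : ℝ) * Real.exp (-(k : ℝ)) ≤ 1 := by
        have h4 : (k : ℝ) ≤ Real.exp k := by
          have := Real.add_one_le_exp (k : ℝ)
          linarith
        calc (k : ℝ) * Real.exp (-(k : ℝ)) ≤ Real.exp k * Real.exp (-(k : ℝ)) :=
              mul_le_mul_of_nonneg_right h4 (Real.exp_pos _).le
          _ = 1 := by rw [← Real.exp_add, add_neg_cancel, Real.exp_zero]
      have hl4 : ee * ((k : ℝ) * Real.exp (-(k : ℝ))) ≤ 1 / 1000 * 1 :=
        mul_le_mul hee1 hl3 (by positivity) (by norm_num)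
      nlinarith
    · have h3 : ‖v.1‖ ^ (2 * (k - m)) * ‖v.2‖ ^ (2 * m) / Ph v ^ k = 0 := by
        rw [h2, norm_zero, zero_pow (by omega), mul_zero, zero_div]
      rw [h3]
      positivity
  · have hn2 : 0 < ‖v.2‖ := norm_pos_iff.mpr h2
    by_cases h1 : v.1 = 0
    · rcases Nat.lt_or_ge m k with hlt | hge
      · have h3 : ‖v.1‖ ^ (2 * (k - m)) * ‖v.2‖ ^ (2 * m) / Ph v ^ k = 0 := by
          rw [h1, norm_zero, zero_pow (by omega), zero_mul, zero_div]
        rw [h3]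
        positivity
      · have hmk2 : m = k := le_antisymm hmk hge
        subst hmk2
        refine hfin _ _ (diag_A hk hmk (Real.log m)) ?_
        have hPh : Ph v = ‖v.2‖ ^ 2 * Real.exp (ee) := by
          unfold Ph Ef
          rw [if_neg h2, h1]
          simp
        rw [hPh, Nat.sub_self, mul_zero, pow_zero, one_mul, mul_pow, ← pow_mul,
          div_mul_eq_div_div, div_self (by positivity), ← Real.exp_nat_mul, one_div,
          ← Real.exp_neg, ← Real.exp_add, Real.exp_le_exp, Real.exp_neg (Real.log m),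
          Real.exp_log hk0]
        have hl : Real.log (1 + (m : ℝ)) = Real.log m + Real.log (1 + (m : ℝ)⁻¹) := by
          rw [← Real.log_mul hk0.ne' (by positivity)]
          congr 1
          field_simp
          ring
        have hl1 : Real.log (1 + (m : ℝ)⁻¹) ≤ (m : ℝ)⁻¹ := by
          have := Real.log_le_sub_one_of_pos (x := 1 + (m : ℝ)⁻¹) (by positivity)
          linarith
        have hl2 : (m : ℝ) * Real.log (1 + (m : ℝ)⁻¹) ≤ 1 := by
          calc (m : ℝ) * Real.log (1 + (m : ℝ)⁻¹) ≤ m * (m : ℝ)⁻¹ :=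
                mul_le_mul_of_nonneg_left hl1 hk0.le
            _ = 1 := mul_inv_cancel₀ hk0.ne'
        have hl3 : Real.exp (-(m : ℝ)⁻¹) ≤ 1 := by
          rw [Real.exp_le_one_iff]
          have : 0 < (m : ℝ)⁻¹ := by positivity
          linarith
        rw [hl]
        have hl4 : (m : ℝ) * ee * Real.exp (-(m : ℝ)⁻¹) ≤ m * ee :=
          mul_le_of_le_one_right (by positivity) hl3
        nlinarith
    · have hn1 : 0 < ‖v.1‖ := norm_pos_iff.mpr h1
      refine hfin _ _ (diag_A hk hmk (Real.log (‖v.2‖ ^ 2 / ‖v.1‖ ^ 2))) ?_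
      have hTpos : 0 < ‖v.2‖ ^ 2 / ‖v.1‖ ^ 2 := by positivity
      have e1 : ‖v.1‖ ^ (2 * (k - m)) * ‖v.2‖ ^ (2 * m) / Ph v ^ k =
          Real.exp (m * Real.log (‖v.2‖ ^ 2 / ‖v.1‖ ^ 2) -
            k * (Real.log (1 + Real.exp (Real.log (‖v.2‖ ^ 2 / ‖v.1‖ ^ 2))) +
              ee * Real.exp (-Real.exp (-Real.log (‖v.2‖ ^ 2 / ‖v.1‖ ^ 2))))) := by
        rw [Real.exp_sub, Real.exp_nat_mul, Real.exp_nat_mul, Real.exp_add,
          Real.exp_neg (Real.log (‖v.2‖ ^ 2 / ‖v.1‖ ^ 2)), Real.exp_log hTpos,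
          Real.exp_log (by positivity), inv_div]
        unfold Ph Ef
        rw [if_neg h2, pow_mul, pow_mul]
        obtain ⟨p, hp⟩ : ∃ p, p = ‖v.1‖ ^ 2 := ⟨_, rfl⟩
        obtain ⟨q, hq⟩ : ∃ q, q = ‖v.2‖ ^ 2 := ⟨_, rfl⟩
        have hp0 : 0 < p := by rw [hp]; positivity
        have hq0 : 0 < q := by rw [hq]; positivity
        rw [← hp, ← hq]
        obtain ⟨Y, hY⟩ : ∃ Y, Y = Real.exp (ee * Real.exp (-(p / q))) := ⟨_, rfl⟩
        have hY0 : 0 < Y := by rw [hY]; exact Real.exp_pos _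
        rw [← hY]
        have e2 : (p + q) * Y = p * ((1 + q / p) * Y) := by
          field_simp
        have e3 : p ^ k = p ^ (k - m) * p ^ m := by
          rw [← pow_add]
          congr 1
          omega
        rw [e2, mul_pow p, e3, div_pow]
        field_simp
      rw [e1]
      exact le_mul_of_one_le_right (Real.exp_pos _).le he2

/-- The squared norm, as a function of `|v.1|²` and `|v.2|²`. -/
def phi (X Y : ℝ) : ℝ := (X + Y) * Real.exp (ee * if Y = 0 then 0 else Real.exp (-(X / Y)))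

theorem Ph_eq_phi (v : ℂ × ℂ) : Ph v = phi (‖v.1‖ ^ 2) (‖v.2‖ ^ 2) := by
  unfold Ph phi Ef
  by_cases h : v.2 = 0
  · rw [if_pos h, if_pos (by rw [h]; simp)]
  · rw [if_neg h, if_neg (pow_ne_zero 2 (norm_ne_zero_iff.2 h))]

theorem gap_exp {X Y : ℝ} (hX : 0 < X) (hY : 0 < Y) :
    Real.exp (uR (ee) (Real.log (Y / X)) -
      1 / 2 * Real.log (1 + Real.exp (Real.log (Y / X)))) = phi X Y / √(X * (X + Y)) := by
  have h1 : 0 < Y / X := div_pos hY hX
  have h2 : Real.exp (Real.log (Y / X)) = Y / X := Real.exp_log h1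
  have h3 : Real.exp (-Real.log (Y / X)) = X / Y := by
    rw [Real.exp_neg, h2, inv_div]
  have h4 : 0 < 1 + Y / X := by linarith
  unfold uR phi
  rw [h2, h3, if_neg hY.ne']
  have e1 : Real.log (1 + Y / X) + ee * Real.exp (-(X / Y)) - 1 / 2 * Real.log (1 + Y / X) =
      Real.log (√(1 + Y / X)) + ee * Real.exp (-(X / Y)) := by
    rw [Real.log_sqrt h4.le]
    ring
  rw [e1, Real.exp_add, Real.exp_log (Real.sqrt_pos.2 h4)]
  have e2 : √(1 + Y / X) = (X + Y) / √(X * (X + Y)) := by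
    have hXY : 0 < X * (X + Y) := by positivity
    rw [eq_div_iff (Real.sqrt_pos.2 hXY).ne', ← Real.sqrt_mul h4.le]
    have : (1 + Y / X) * (X * (X + Y)) = (X + Y) ^ 2 := by
      field_simp
    rw [this, Real.sqrt_sq (by positivity)]
  rw [e2]
  ring

theorem gap_main {a b c d : ℝ} (ha : 0 < a) (hb : 0 < b) (hc : 0 < c) (hd : 0 < d) :
    phi (a * c) (b * d) ^ 2 * √((a ^ 2 + b ^ 2) * (c ^ 2 + d ^ 2)) ≤
      phi (a ^ 2) (b ^ 2) * phi (c ^ 2) (d ^ 2) * (a * c + b * d) := by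
  have hconv := uR_sub_half_convexOn (e := ee) ee_nonneg ee_le
  have h1 := hconv.2 (mem_univ (Real.log (b ^ 2 / a ^ 2))) (mem_univ (Real.log (d ^ 2 / c ^ 2)))
    (by norm_num : (0 : ℝ) ≤ 1 / 2) (by norm_num : (0 : ℝ) ≤ 1 / 2) (by norm_num)
  have hmid : (1 / 2 : ℝ) • Real.log (b ^ 2 / a ^ 2) + (1 / 2 : ℝ) • Real.log (d ^ 2 / c ^ 2) =
      Real.log (b * d / (a * c)) := by
    rw [smul_eq_mul, smul_eq_mul, ← mul_add, ← Real.log_mul (by positivity) (by positivity)]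
    have : b ^ 2 / a ^ 2 * (d ^ 2 / c ^ 2) = (b * d / (a * c)) ^ 2 := by
      field_simp
    rw [this, Real.log_pow]
    push_cast
    ring
  rw [hmid] at h1
  simp only [smul_eq_mul] at h1
  have h2 : 2 * (uR (ee) (Real.log (b * d / (a * c))) -
      1 / 2 * Real.log (1 + Real.exp (Real.log (b * d / (a * c))))) ≤
      (uR (ee) (Real.log (b ^ 2 / a ^ 2)) -
        1 / 2 * Real.log (1 + Real.exp (Real.log (b ^ 2 / a ^ 2)))) +
      (uR (ee) (Real.log (d ^ 2 / c ^ 2)) -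
        1 / 2 * Real.log (1 + Real.exp (Real.log (d ^ 2 / c ^ 2)))) := by linarith
  have h3 := Real.exp_le_exp.2 h2
  rw [Real.exp_add, gap_exp (by positivity) (by positivity), gap_exp (by positivity) (by positivity),
    two_mul, Real.exp_add, gap_exp (by positivity) (by positivity)] at h3
  have hac : 0 < a * c := by positivity
  have hbd : 0 < b * d := by positivity
  have hS : 0 < (a ^ 2 + b ^ 2) * (c ^ 2 + d ^ 2) := by positivity
  have e1 : √(a * c * (a * c + b * d)) * √(a * c * (a * c + b * d)) = a * c * (a * c + b * d) :=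
    Real.mul_self_sqrt (by positivity)
  have e2 : √(a ^ 2 * (a ^ 2 + b ^ 2)) * √(c ^ 2 * (c ^ 2 + d ^ 2)) =
      a * c * √((a ^ 2 + b ^ 2) * (c ^ 2 + d ^ 2)) := by
    rw [← Real.sqrt_mul (by positivity)]
    have : a ^ 2 * (a ^ 2 + b ^ 2) * (c ^ 2 * (c ^ 2 + d ^ 2)) =
        (a * c) ^ 2 * ((a ^ 2 + b ^ 2) * (c ^ 2 + d ^ 2)) := by ring
    rw [this, Real.sqrt_mul (by positivity), Real.sqrt_sq hac.le]
  rw [div_mul_div_comm, div_mul_div_comm, e1, e2, div_le_div_iff₀ (by positivity)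
    (mul_pos hac (Real.sqrt_pos.2 hS))] at h3
  have h4 : (a * c) * (phi (a * c) (b * d) ^ 2 * √((a ^ 2 + b ^ 2) * (c ^ 2 + d ^ 2))) ≤
      (a * c) * (phi (a ^ 2) (b ^ 2) * phi (c ^ 2) (d ^ 2) * (a * c + b * d)) := by
    calc (a * c) * (phi (a * c) (b * d) ^ 2 * √((a ^ 2 + b ^ 2) * (c ^ 2 + d ^ 2))) =
        phi (a * c) (b * d) * phi (a * c) (b * d) *
          (a * c * √((a ^ 2 + b ^ 2) * (c ^ 2 + d ^ 2))) := by ring
      _ ≤ phi (a ^ 2) (b ^ 2) * phi (c ^ 2) (d ^ 2) * (a * c * (a * c + b * d)) := h3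
      _ = _ := by ring
  exact le_of_mul_le_mul_left h4 hac

theorem phi_ge {X Y : ℝ} (h : 0 ≤ X + Y) : X + Y ≤ phi X Y := by
  unfold phi
  have hee : 0 ≤ ee := ee_nonneg
  have h1 : 1 ≤ Real.exp (ee * if Y = 0 then 0 else Real.exp (-(X / Y))) := by
    apply Real.one_le_exp
    split_ifs
    · norm_num
    · positivity
  nlinarith

theorem gap_b0 {a c d : ℝ} (ha : 0 ≤ a) (hc : 0 ≤ c) :
    phi (a * c) (0 * d) ^ 2 * √((a ^ 2 + 0 ^ 2) * (c ^ 2 + d ^ 2)) ≤
      phi (a ^ 2) (0 ^ 2) * phi (c ^ 2) (d ^ 2) * (a * c + 0 * d) := by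
  have e1 : phi (a * c) (0 * d) = a * c := by
    unfold phi
    simp
  have e2 : phi (a ^ 2) (0 ^ 2) = a ^ 2 := by
    unfold phi
    simp
  have h1 : c ^ 2 + d ^ 2 ≤ phi (c ^ 2) (d ^ 2) := phi_ge (by positivity)
  have h2 : √((a ^ 2 + 0 ^ 2) * (c ^ 2 + d ^ 2)) = a * √(c ^ 2 + d ^ 2) := by
    have : a ^ 2 + 0 ^ 2 = a ^ 2 := by ring
    rw [this, Real.sqrt_mul (sq_nonneg a), Real.sqrt_sq ha]
  have h3 : c ≤ √(c ^ 2 + d ^ 2) := Real.le_sqrt_of_sq_le (by nlinarith [sq_nonneg d])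
  have h4 : √(c ^ 2 + d ^ 2) * √(c ^ 2 + d ^ 2) = c ^ 2 + d ^ 2 :=
    Real.mul_self_sqrt (by positivity)
  rw [e1, e2, h2]
  set w := √(c ^ 2 + d ^ 2) with hw
  have hw0 : 0 ≤ w := Real.sqrt_nonneg _
  have h5 : c * w ≤ phi (c ^ 2) (d ^ 2) := by nlinarith
  have h6 : (a ^ 3 * c) * (c * w) ≤ (a ^ 3 * c) * phi (c ^ 2) (d ^ 2) :=
    mul_le_mul_of_nonneg_left h5 (by positivity)
  calc (a * c) ^ 2 * (a * w) = (a ^ 3 * c) * (c * w) := by ring
    _ ≤ (a ^ 3 * c) * phi (c ^ 2) (d ^ 2) := h6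
    _ = _ := by ring

theorem gap_a0 {b c d : ℝ} (hb : 0 < b) (hc : 0 ≤ c) (hd : 0 < d) :
    phi (0 * c) (b * d) ^ 2 * √((0 ^ 2 + b ^ 2) * (c ^ 2 + d ^ 2)) ≤
      phi (0 ^ 2) (b ^ 2) * phi (c ^ 2) (d ^ 2) * (0 * c + b * d) := by
  have e1 : phi (0 * c) (b * d) = b * d * Real.exp (ee) := by
    unfold phi
    rw [if_neg (by positivity)]
    simp
  have e2 : phi (0 ^ 2) (b ^ 2) = b ^ 2 * Real.exp (ee) := by
    unfold phi
    rw [if_neg (by positivity)]
    simp
  have e3 : phi (c ^ 2) (d ^ 2) =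
      (c ^ 2 + d ^ 2) * Real.exp (ee * Real.exp (-(c ^ 2 / d ^ 2))) := by
    unfold phi
    rw [if_neg (by positivity)]
  have h2 : √((0 ^ 2 + b ^ 2) * (c ^ 2 + d ^ 2)) = b * √(c ^ 2 + d ^ 2) := by
    have : (0 : ℝ) ^ 2 + b ^ 2 = b ^ 2 := by ring
    rw [this, Real.sqrt_mul (sq_nonneg b), Real.sqrt_sq hb.le]
  obtain ⟨s, hs⟩ : ∃ s, s = c ^ 2 / d ^ 2 := ⟨_, rfl⟩
  have hs0 : 0 ≤ s := by rw [hs]; positivity
  obtain ⟨q, hq⟩ : ∃ q, q = 1 - Real.exp (-s) := ⟨_, rfl⟩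
  have hq1 : q ≤ 1 := by
    have := Real.exp_pos (-s)
    linarith
  have hq2 : q ≤ s := by
    have := Real.add_one_le_exp (-s)
    linarith
  have hq0 : 0 ≤ q := by
    have := Real.exp_le_one_iff.2 (by linarith : -s ≤ 0)
    linarith
  -- exp (q / 500) ≤ 1 + s
  have hk : Real.exp (2 * ee * q) ≤ 1 + s := by
    have h3 := Real.add_one_le_exp (-(2 * ee * q))
    have h4 : Real.exp (2 * ee * q) * Real.exp (-(2 * ee * q)) = 1 := by
      rw [← Real.exp_add]
      simp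
    have h5 := Real.exp_pos (2 * ee * q)
    have h6 : Real.exp (2 * ee * q) * (1 - 2 * ee * q) ≤ 1 := by nlinarith
    have hx : 2 * ee * q ≤ 1 / 500 * q :=
      mul_le_mul_of_nonneg_right (by linarith [ee_le]) hq0
    have h7 : 1 ≤ (1 + s) * (1 - 2 * ee * q) := by
      nlinarith [mul_nonneg hs0 hq0, mul_le_mul_of_nonneg_left hx (by linarith : (0 : ℝ) ≤ 1 + s)]
    have h8 : 0 < 1 - 2 * ee * q := by linarith
    exact le_of_mul_le_mul_right (h6.trans h7) h8
  set w := √(c ^ 2 + d ^ 2) with hw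
  have hw0 : 0 ≤ w := Real.sqrt_nonneg _
  have hw2 : w * w = c ^ 2 + d ^ 2 := Real.mul_self_sqrt (by positivity)
  have hws : w * w = d ^ 2 * (1 + s) := by
    rw [hw2, hs]
    field_simp
    ring
  -- d exp(ε) ≤ w exp(ε exp(-s))
  have hA : d * Real.exp (ee) ≤ w * Real.exp (ee * Real.exp (-s)) := by
    have e5 : Real.exp (ee) =
        Real.exp (ee * q) * Real.exp (ee * Real.exp (-s)) := by
      rw [← Real.exp_add]
      congr 1
      rw [hq]
      ring
    rw [e5, ← mul_assoc]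
    apply mul_le_mul_of_nonneg_right _ (Real.exp_pos _).le
    have h9 : (d * Real.exp (ee * q)) ^ 2 ≤ w ^ 2 := by
      have e6 : Real.exp (ee * q) ^ 2 = Real.exp (2 * ee * q) := by
        rw [pow_two, ← Real.exp_add]
        congr 1
        ring
      rw [mul_pow, e6, pow_two w, hws]
      exact mul_le_mul_of_nonneg_left hk (by positivity)
    exact le_of_sq_le_sq h9 hw0
  rw [e1, e2, e3, h2, ← hw2, ← hs]
  have h10 : 0 ≤ b ^ 3 * d * Real.exp (ee) * w := by positivity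
  calc (b * d * Real.exp (ee)) ^ 2 * (b * w) =
      (b ^ 3 * d * Real.exp (ee) * w) * (d * Real.exp (ee)) := by ring
    _ ≤ (b ^ 3 * d * Real.exp (ee) * w) * (w * Real.exp (ee * Real.exp (-s))) :=
      mul_le_mul_of_nonneg_left hA h10
    _ = _ := by ring

theorem gap_symm {a b c d : ℝ}
    (h : phi (c * a) (d * b) ^ 2 * √((c ^ 2 + d ^ 2) * (a ^ 2 + b ^ 2)) ≤
      phi (c ^ 2) (d ^ 2) * phi (a ^ 2) (b ^ 2) * (c * a + d * b)) :
    phi (a * c) (b * d) ^ 2 * √((a ^ 2 + b ^ 2) * (c ^ 2 + d ^ 2)) ≤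
      phi (a ^ 2) (b ^ 2) * phi (c ^ 2) (d ^ 2) * (a * c + b * d) := by
  rw [mul_comm a c, mul_comm b d, mul_comm (a ^ 2 + b ^ 2), mul_comm (phi (a ^ 2) (b ^ 2))]
  exact h

/-- Convexity, in multiplicative form. -/
theorem gap {a b c d : ℝ} (ha : 0 ≤ a) (hb : 0 ≤ b) (hc : 0 ≤ c) (hd : 0 ≤ d)
    (hab : 0 < a + b) (hcd : 0 < c + d) :
    phi (a * c) (b * d) ^ 2 * √((a ^ 2 + b ^ 2) * (c ^ 2 + d ^ 2)) ≤
      phi (a ^ 2) (b ^ 2) * phi (c ^ 2) (d ^ 2) * (a * c + b * d) := by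
  rcases hb.eq_or_lt with hb0 | hb0
  · rw [← hb0]
    exact gap_b0 ha hc
  · rcases hd.eq_or_lt with hd0 | hd0
    · rw [← hd0]
      apply gap_symm
      exact gap_b0 hc ha
    · rcases ha.eq_or_lt with ha0 | ha0
      · rw [← ha0]
        exact gap_a0 hb0 hc hd0
      · rcases hc.eq_or_lt with hc0 | hc0
        · rw [← hc0]
          apply gap_symm
          exact gap_a0 hd0 ha hb0
        · exact gap_main ha0 hb0 hc0 hd0

omit [EP] in
/-- The norm of the kernel, up to the factor `C k (k + 1)`, is at most the power of the radial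
part of the (Fubini–Study) kernel. -/
theorem radial_bound : ∃ C : ℝ, 0 < C ∧ ∀ (_ : EP) (k : ℕ), 1 ≤ k → ∀ v w : ℂ × ℂ, v ≠ 0 → w ≠ 0 →
    ‖∑ m ∈ Finset.range (k + 1), mono k m v * conj (mono k m w) / (hm k m : ℂ)‖ /
        √(Ph v ^ k * Ph w ^ k) ≤
      C * k * (k + 1) * √((‖v.1‖ * ‖w.1‖ + ‖v.2‖ * ‖w.2‖) /
        √((‖v.1‖ ^ 2 + ‖v.2‖ ^ 2) * (‖w.1‖ ^ 2 + ‖w.2‖ ^ 2))) ^ k := by
  obtain ⟨C, hC, hdiag⟩ := diag_bound
  refine ⟨C, hC, fun inst k hk v w hv hw => ?_⟩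
  replace hdiag := hdiag inst
  have hPv := Ph_pos hv
  have hPw := Ph_pos hw
  have hPhv := Ph_eq_phi v
  have hPhw := Ph_eq_phi w
  have hterm : ∀ m ∈ Finset.range (k + 1),
      ‖mono k m v * conj (mono k m w) / (hm k m : ℂ)‖
        = (‖v.1‖ * ‖w.1‖) ^ (k - m) * (‖v.2‖ * ‖w.2‖) ^ m / hm k m := by
    intro m hm'
    have hmk : m ≤ k := Nat.lt_succ_iff.1 (Finset.mem_range.1 hm')
    rw [norm_div, norm_mul, RCLike.norm_conj, Complex.norm_real,
      Real.norm_of_nonneg (hm_pos hmk).le]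
    simp only [mono, norm_mul, norm_pow]
    congr 1
    rw [mul_pow, mul_pow]; ring
  have hsum : ‖∑ m ∈ Finset.range (k + 1), mono k m v * conj (mono k m w) / (hm k m : ℂ)‖
      ≤ ∑ m ∈ Finset.range (k + 1),
        (‖v.1‖ * ‖w.1‖) ^ (k - m) * (‖v.2‖ * ‖w.2‖) ^ m / hm k m :=
    (norm_sum_le _ _).trans (Finset.sum_congr rfl hterm).le
  have hab : 0 < ‖v.1‖ + ‖v.2‖ := by
    by_contra hcon
    have h1 := norm_nonneg v.1
    have h2 := norm_nonneg v.2
    have h3 : ‖v.1‖ = 0 := by linarith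
    have h4 : ‖v.2‖ = 0 := by linarith
    exact hv (Prod.ext (norm_eq_zero.1 h3) (norm_eq_zero.1 h4))
  have hcd : 0 < ‖w.1‖ + ‖w.2‖ := by
    by_contra hcon
    have h1 := norm_nonneg w.1
    have h2 := norm_nonneg w.2
    have h3 : ‖w.1‖ = 0 := by linarith
    have h4 : ‖w.2‖ = 0 := by linarith
    exact hw (Prod.ext (norm_eq_zero.1 h3) (norm_eq_zero.1 h4))
  have hgap := gap (norm_nonneg v.1) (norm_nonneg v.2) (norm_nonneg w.1) (norm_nonneg w.2) hab hcd
  rw [← hPhv, ← hPhw] at hgap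
  generalize hS : ‖∑ m ∈ Finset.range (k + 1), mono k m v * conj (mono k m w) / (hm k m : ℂ)‖ = S
    at hsum ⊢
  have hS0 : 0 ≤ S := by rw [← hS]; exact norm_nonneg _
  have ha0 := norm_nonneg v.1
  have hb0 := norm_nonneg v.2
  have hc0 := norm_nonneg w.1
  have hd0 := norm_nonneg w.2
  generalize ‖v.1‖ = a at *
  generalize ‖v.2‖ = b at *
  generalize ‖w.1‖ = c at *
  generalize ‖w.2‖ = d at *
  generalize Ph v = pv at *
  generalize Ph w = pw at *
  have hab2 : 0 < a ^ 2 + b ^ 2 := by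
    rcases ha0.eq_or_lt with h | h
    · have : 0 < b := by linarith
      positivity
    · positivity
  have hcd2 : 0 < c ^ 2 + d ^ 2 := by
    rcases hc0.eq_or_lt with h | h
    · have : 0 < d := by linarith
      positivity
    · positivity
  have hQ : 0 < √((a ^ 2 + b ^ 2) * (c ^ 2 + d ^ 2)) := Real.sqrt_pos.2 (by positivity)
  set Q := √((a ^ 2 + b ^ 2) * (c ^ 2 + d ^ 2)) with hQdef
  have hX0 : 0 ≤ a * c := by positivity
  have hY0 : 0 ≤ b * d := by positivity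
  by_cases hXY : a * c + b * d = 0
  · have hX : a * c = 0 := by linarith
    have hY : b * d = 0 := by linarith
    have hz : ∑ m ∈ Finset.range (k + 1), (a * c) ^ (k - m) * (b * d) ^ m / hm k m = 0 := by
      apply Finset.sum_eq_zero
      intro m _
      rw [hX, hY]
      rcases Nat.eq_zero_or_pos m with h | h
      · subst h
        rw [zero_pow (by omega), zero_mul, zero_div]
      · rw [zero_pow (n := m) (by omega), mul_zero, zero_div]
    have : S = 0 := le_antisymm (hsum.trans hz.le) hS0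
    rw [this, zero_div]; positivity
  · have hXYpos : 0 < a * c + b * d := lt_of_le_of_ne (by positivity) (Ne.symm hXY)
    set ξ : ℂ × ℂ := ((√(a * c) : ℝ), (√(b * d) : ℝ)) with hξ
    have hn1 : ‖ξ.1‖ ^ 2 = a * c := by
      rw [hξ]
      simp only [Complex.norm_real, Real.norm_of_nonneg (Real.sqrt_nonneg _)]
      exact Real.sq_sqrt hX0
    have hn2 : ‖ξ.2‖ ^ 2 = b * d := by
      rw [hξ]
      simp only [Complex.norm_real, Real.norm_of_nonneg (Real.sqrt_nonneg _)]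
      exact Real.sq_sqrt hY0
    have hξ0 : ξ ≠ 0 := by
      intro h
      rw [h] at hn1 hn2
      simp at hn1 hn2
      exact hXY (by rw [← mul_eq_zero] at hn1 hn2; linarith)
    have hphi : Ph ξ = phi (a * c) (b * d) := by rw [Ph_eq_phi, hn1, hn2]
    have hphipos : 0 < phi (a * c) (b * d) := by rw [← hphi]; exact Ph_pos hξ0
    set p := phi (a * c) (b * d) with hp
    have hbd : ∀ m ∈ Finset.range (k + 1),
        (a * c) ^ (k - m) * (b * d) ^ m / hm k m ≤ C * k * p ^ k := by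
      intro m hm'
      have hmk : m ≤ k := Nat.lt_succ_iff.1 (Finset.mem_range.1 hm')
      have h1 := hdiag k m hk hmk ξ hξ0
      rw [pow_mul, pow_mul, hn1, hn2, hphi] at h1
      rw [div_le_iff₀ (by positivity)] at h1
      rw [div_le_iff₀ (hm_pos hmk)]
      calc _ ≤ _ := h1
        _ = _ := by ring
    have hsum2 : S ≤ C * k * (k + 1) * p ^ k := by
      refine hsum.trans ((Finset.sum_le_sum hbd).trans ?_)
      rw [Finset.sum_const, Finset.card_range, nsmul_eq_mul]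
      push_cast
      apply le_of_eq; ring
    have hsq : √(pv ^ k * pw ^ k) = √(pv * pw) ^ k := by
      rw [← mul_pow]
      rw [Real.sqrt_eq_iff_mul_self_eq (by positivity) (by positivity), ← mul_pow,
        Real.mul_self_sqrt (by positivity)]
    have hsp : 0 < √(pv * pw) := Real.sqrt_pos.2 (by positivity)
    have hrat : p / √(pv * pw) ≤ √((a * c + b * d) / Q) := by
      apply Real.le_sqrt_of_sq_le
      rw [div_pow, Real.sq_sqrt (by positivity), div_le_div_iff₀ (by positivity) hQ]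
      calc p ^ 2 * Q ≤ pv * pw * (a * c + b * d) := hgap
        _ = _ := by ring
    rw [hsq]
    calc S / √(pv * pw) ^ k ≤ (C * k * (k + 1) * p ^ k) / √(pv * pw) ^ k := by gcongr
      _ = C * k * (k + 1) * (p / √(pv * pw)) ^ k := by rw [div_pow]; ring
      _ ≤ _ := by gcongr

theorem phi_scale {X Y : ℝ} (hX : 0 < X) (hY : 0 < Y) : phi X Y = X * phi 1 (Y / X) := by
  unfold phi
  rw [if_neg hY.ne', if_neg (div_pos hY hX).ne', one_div_div]
  have : X + Y = X * (1 + Y / X) := by field_simp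
  rw [this]
  ring

theorem coef_eq {T : ℝ} (hT : 0 < T) (k m : ℕ) :
    Real.exp (((k : ℝ) + 2) * (((m : ℝ) + 1) / ((k : ℝ) + 2) * Real.log T -
      uR (ee * k / (k + 2)) (Real.log T))) = T ^ (m + 1) / ((1 + T) ^ 2 * phi 1 T ^ k) := by
  have hk : (0:ℝ) < (k:ℝ) + 2 := by positivity
  have h1T : 0 < 1 + T := by linarith
  unfold uR phi
  rw [if_neg hT.ne', Real.exp_neg (Real.log T), Real.exp_log hT]
  have e1 : ((k : ℝ) + 2) * (((m : ℝ) + 1) / ((k : ℝ) + 2) * Real.log T -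
      (Real.log (1 + T) + ee * k / (k + 2) * Real.exp (-T⁻¹))) =
      ((m + 1 : ℕ) : ℝ) * Real.log T - (((2 : ℕ) : ℝ) * Real.log (1 + T) +
        (k : ℝ) * (Real.log (1 + T) + ee * Real.exp (-T⁻¹))) := by
    push_cast
    field_simp
    ring
  rw [e1, Real.exp_sub, Real.exp_add, Real.exp_nat_mul, Real.exp_nat_mul, Real.exp_nat_mul,
    Real.exp_add, Real.exp_log hT, Real.exp_log h1T, one_div T]

theorem phi_nonneg {X Y : ℝ} (hX : 0 ≤ X) (hY : 0 ≤ Y) : 0 ≤ phi X Y :=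
  mul_nonneg (add_nonneg hX hY) (Real.exp_pos _).le

theorem phi_sq_le (v w : ℂ × ℂ) (hv : v ≠ 0) (hw : w ≠ 0) :
    phi (‖v.1‖ * ‖w.1‖) (‖v.2‖ * ‖w.2‖) ^ 2 ≤ Ph v * Ph w := by
  have hpos : ∀ v : ℂ × ℂ, v ≠ 0 → 0 < ‖v.1‖ + ‖v.2‖ := by
    intro v hv
    by_contra hcon
    push Not at hcon
    have h1 := norm_nonneg v.1
    have h2 := norm_nonneg v.2
    have h3 : ‖v.1‖ = 0 := by linarith
    have h4 : ‖v.2‖ = 0 := by linarith
    apply hv
    ext
    · exact norm_eq_zero.1 h3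
    · exact norm_eq_zero.1 h4
  set a := ‖v.1‖ with ha
  set b := ‖v.2‖ with hb
  set c := ‖w.1‖ with hc
  set d := ‖w.2‖ with hd
  have ha0 : 0 ≤ a := norm_nonneg _
  have hb0 : 0 ≤ b := norm_nonneg _
  have hc0 : 0 ≤ c := norm_nonneg _
  have hd0 : 0 ≤ d := norm_nonneg _
  have hab : 0 < a + b := hpos v hv
  have hcd : 0 < c + d := hpos w hw
  have hg := gap ha0 hb0 hc0 hd0 hab hcd
  rw [Ph_eq_phi, Ph_eq_phi, ← ha, ← hb, ← hc, ← hd]
  have hs1 : 0 < a ^ 2 + b ^ 2 := by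
    rcases lt_or_eq_of_le ha0 with h | h
    · positivity
    · have : 0 < b := by rw [← h] at hab; linarith
      positivity
  have hs2 : 0 < c ^ 2 + d ^ 2 := by
    rcases lt_or_eq_of_le hc0 with h | h
    · positivity
    · have : 0 < d := by rw [← h] at hcd; linarith
      positivity
  have hS : 0 < √((a ^ 2 + b ^ 2) * (c ^ 2 + d ^ 2)) := Real.sqrt_pos.2 (mul_pos hs1 hs2)
  have hCS : a * c + b * d ≤ √((a ^ 2 + b ^ 2) * (c ^ 2 + d ^ 2)) := by
    apply Real.le_sqrt_of_sq_le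
    nlinarith [sq_nonneg (a * d - b * c)]
  have hP : 0 ≤ phi (a ^ 2) (b ^ 2) * phi (c ^ 2) (d ^ 2) :=
    mul_nonneg (phi_nonneg (sq_nonneg _) (sq_nonneg _)) (phi_nonneg (sq_nonneg _) (sq_nonneg _))
  have h2 : phi (a * c) (b * d) ^ 2 * √((a ^ 2 + b ^ 2) * (c ^ 2 + d ^ 2)) ≤
      (phi (a ^ 2) (b ^ 2) * phi (c ^ 2) (d ^ 2)) * √((a ^ 2 + b ^ 2) * (c ^ 2 + d ^ 2)) :=
    hg.trans (mul_le_mul_of_nonneg_left hCS hP)
  exact le_of_mul_le_mul_right h2 hS

omit [EP] in
/-- The bound in the angular direction. -/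
theorem angular_bound {τ : ℝ} (h0 : 0 < τ) (h1 : τ < 1) : ∃ C c : ℝ, 0 < C ∧ 0 < c ∧
    ∀ (_ : EP) (k : ℕ), 1 ≤ k → ∀ v w : ℂ × ℂ, v.1 ≠ 0 → v.2 ≠ 0 → w.1 ≠ 0 → w.2 ≠ 0 →
    τ * (‖v.1‖ * ‖w.1‖) ≤ ‖v.2‖ * ‖w.2‖ → τ * (‖v.2‖ * ‖w.2‖) ≤ ‖v.1‖ * ‖w.1‖ →
    τ ≤ ‖1 - v.2 * conj w.2 * (‖v.1‖ * ‖w.1‖) / (v.1 * conj w.1 * (‖v.2‖ * ‖w.2‖))‖ →
    ‖∑ m ∈ Finset.range (k + 1), mono k m v * conj (mono k m w) / (hm k m : ℂ)‖ /
        √(Ph v ^ k * Ph w ^ k) ≤ C * Real.exp (-c * k) := by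
  have hinv : 1 < 1 / τ := by rw [lt_div_iff₀ h0]; linarith
  obtain ⟨C, c, hC, hc, hang⟩ := angular h0 h1 (Real.log_pos hinv)
  refine ⟨C * ((1 + 1 / τ) ^ 2 / τ), c, by positivity, hc, ?_⟩
  intro inst k hk v w hv1 hv2 hw1 hw2 hT1 hT2 hζτ
  have hv : v ≠ 0 := fun h => hv1 (by rw [h]; rfl)
  have hw : w ≠ 0 := fun h => hw1 (by rw [h]; rfl)
  have nv1 : 0 < ‖v.1‖ := norm_pos_iff.2 hv1
  have nv2 : 0 < ‖v.2‖ := norm_pos_iff.2 hv2
  have nw1 : 0 < ‖w.1‖ := norm_pos_iff.2 hw1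
  have nw2 : 0 < ‖w.2‖ := norm_pos_iff.2 hw2
  have hX : 0 < ‖v.1‖ * ‖w.1‖ := mul_pos nv1 nw1
  have hY : 0 < ‖v.2‖ * ‖w.2‖ := mul_pos nv2 nw2
  set T : ℝ := (‖v.2‖ * ‖w.2‖) / (‖v.1‖ * ‖w.1‖) with hTd
  have hT : 0 < T := div_pos hY hX
  have hTl : τ ≤ T := by rw [hTd, le_div_iff₀ hX]; exact hT1
  have hTu : T ≤ 1 / τ := by rw [hTd, div_le_div_iff₀ hX h0]; linarith
  have hL : |Real.log T| ≤ Real.log (1 / τ) := by
    rw [abs_le]
    constructor
    · rw [one_div, Real.log_inv, neg_neg]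
      exact Real.log_le_log h0 hTl
    · exact Real.log_le_log hT hTu
  set ζ : ℂ := v.2 * conj w.2 * (‖v.1‖ * ‖w.1‖) / (v.1 * conj w.1 * (‖v.2‖ * ‖w.2‖)) with hζd
  have cw1 : conj w.1 ≠ 0 := by simpa using hw1
  have cw2 : conj w.2 ≠ 0 := by simpa using hw2
  have cnv1 : ((‖v.1‖ : ℝ) : ℂ) ≠ 0 := by exact_mod_cast nv1.ne'
  have cnv2 : ((‖v.2‖ : ℝ) : ℂ) ≠ 0 := by exact_mod_cast nv2.ne'
  have cnw1 : ((‖w.1‖ : ℝ) : ℂ) ≠ 0 := by exact_mod_cast nw1.ne'
  have cnw2 : ((‖w.2‖ : ℝ) : ℂ) ≠ 0 := by exact_mod_cast nw2.ne'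
  have hζ1 : ‖ζ‖ = 1 := by
    rw [hζd]
    simp only [norm_div, norm_mul, RCLike.norm_conj, Complex.norm_real, norm_norm]
    field_simp
  have hkey : v.2 * conj w.2 = ζ * (T : ℂ) * (v.1 * conj w.1) := by
    rw [hζd, hTd]
    push_cast
    field_simp
  have hk0 : (0:ℝ) ≤ ee * k / (k + 2) := (diag_e k).1
  have hk1 : (ee * k / (k + 2) : ℝ) ≤ 1 / 1000 := (diag_e k).2
  have hA := hang (ee * k / (k + 2)) hk0 hk1 k hk (Real.log T) hL ζ hζ1 hζτ
  set P : ℝ := (1 + T) ^ 2 * phi 1 T ^ k / (Real.pi * T) with hPd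
  have hφ1 : 0 < phi 1 T := mul_pos (by linarith) (Real.exp_pos _)
  have hP0 : 0 < P := by
    rw [hPd]
    have := Real.pi_pos
    positivity
  have hsum : ∑ m ∈ Finset.range (k + 1), mono k m v * conj (mono k m w) / (hm k m : ℂ) =
      (v.1 * conj w.1) ^ k * (P : ℂ) * ∑ m ∈ Finset.range (k + 1),
        ((Real.exp (((k : ℝ) + 2) * (((m : ℝ) + 1) / ((k : ℝ) + 2) * Real.log T -
          uR (ee * k / (k + 2)) (Real.log T))) /
          JR (ee * k / (k + 2)) ((k : ℝ) + 2) (((m : ℝ) + 1) / ((k : ℝ) + 2)) : ℝ) : ℂ) * ζ ^ m := by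
    rw [Finset.mul_sum]
    apply Finset.sum_congr rfl
    intro m hm'
    rw [Finset.mem_range] at hm'
    have hmk : m ≤ k := by omega
    have hpos := hm_pos hmk
    have hJ : 0 < JR (ee * k / (k + 2)) ((k : ℝ) + 2) (((m : ℝ) + 1) / ((k : ℝ) + 2)) := by
      rw [hm_eq hmk] at hpos
      exact (mul_pos_iff_of_pos_left Real.pi_pos).1 hpos
    rw [coef_eq hT, hm_eq hmk]
    set JJ := JR (ee * k / (k + 2)) ((k : ℝ) + 2) (((m : ℝ) + 1) / ((k : ℝ) + 2)) with hJJ
    have e1 : mono k m v * conj (mono k m w) = (v.1 * conj w.1) ^ k * (T : ℂ) ^ m * ζ ^ m := by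
      unfold mono
      rw [map_mul, map_pow, map_pow]
      have e2 : v.1 ^ (k - m) * v.2 ^ m * (conj w.1 ^ (k - m) * conj w.2 ^ m) =
          (v.1 * conj w.1) ^ (k - m) * (v.2 * conj w.2) ^ m := by
        rw [mul_pow, mul_pow]; ring
      rw [e2, hkey, mul_pow, mul_pow]
      have e3 : (v.1 * conj w.1) ^ k = (v.1 * conj w.1) ^ (k - m) * (v.1 * conj w.1) ^ m := by
        rw [← pow_add, Nat.sub_add_cancel hmk]
      rw [e3]
      ring
    have e4 : T ^ m / (Real.pi * JJ) = P * (T ^ (m + 1) / ((1 + T) ^ 2 * phi 1 T ^ k) / JJ) := by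
      rw [hPd]
      have := Real.pi_pos
      have h1T : 0 < 1 + T := by linarith
      field_simp
      ring
    have e5 : ((T : ℂ)) ^ m / ((Real.pi * JJ : ℝ) : ℂ) =
        (P : ℂ) * ((T ^ (m + 1) / ((1 + T) ^ 2 * phi 1 T ^ k) / JJ : ℝ) : ℂ) := by
      rw [← Complex.ofReal_mul, ← e4]
      push_cast
      rfl
    rw [e1]
    calc (v.1 * conj w.1) ^ k * (T : ℂ) ^ m * ζ ^ m / ((Real.pi * JJ : ℝ) : ℂ) =
        (v.1 * conj w.1) ^ k * ((T : ℂ) ^ m / ((Real.pi * JJ : ℝ) : ℂ)) * ζ ^ m := by ring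
      _ = _ := by rw [e5]; ring
  rw [hsum, norm_mul, norm_mul, norm_pow, norm_mul, RCLike.norm_conj, Complex.norm_real,
    Real.norm_eq_abs, abs_of_pos hP0]
  set Q := ‖∑ m ∈ Finset.range (k + 1),
        ((Real.exp (((k : ℝ) + 2) * (((m : ℝ) + 1) / ((k : ℝ) + 2) * Real.log T -
          uR (ee * k / (k + 2)) (Real.log T))) /
          JR (ee * k / (k + 2)) ((k : ℝ) + 2) (((m : ℝ) + 1) / ((k : ℝ) + 2)) : ℝ) : ℂ) * ζ ^ m‖ with hQ
  have hQ0 : 0 ≤ Q := norm_nonneg _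
  have hPv := Ph_pos hv
  have hPw := Ph_pos hw
  have hS : 0 < √(Ph v ^ k * Ph w ^ k) := Real.sqrt_pos.2 (by positivity)
  have hφ := phi_sq_le v w hv hw
  have hφs := phi_scale hX hY
  rw [← hTd] at hφs
  have hφk : (‖v.1‖ * ‖w.1‖) ^ k * phi 1 T ^ k ≤ √(Ph v ^ k * Ph w ^ k) := by
    rw [← mul_pow, ← hφs]
    apply Real.le_sqrt_of_sq_le
    rw [← mul_pow, ← pow_mul, mul_comm k 2, pow_mul]
    exact pow_le_pow_left₀ (sq_nonneg _) hφ k
  have hTT : (1 + T) ^ 2 / (Real.pi * T) ≤ (1 + 1 / τ) ^ 2 / τ := by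
    apply div_le_div₀ (by positivity) _ h0 _
    · gcongr
    · nlinarith [Real.pi_gt_three]
  calc (‖v.1‖ * ‖w.1‖) ^ k * P * Q / √(Ph v ^ k * Ph w ^ k) =
      (((‖v.1‖ * ‖w.1‖) ^ k * phi 1 T ^ k) / √(Ph v ^ k * Ph w ^ k)) *
        ((1 + T) ^ 2 / (Real.pi * T)) * Q := by rw [hPd]; ring
    _ ≤ 1 * ((1 + 1 / τ) ^ 2 / τ) * (C * Real.exp (-c * k)) := by
        have hfr : ((‖v.1‖ * ‖w.1‖) ^ k * phi 1 T ^ k) / √(Ph v ^ k * Ph w ^ k) ≤ 1 := by
          rw [div_le_one hS]; exact hφk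
        have hTT0 : 0 ≤ (1 + T) ^ 2 / (Real.pi * T) := by
          have := Real.pi_pos
          positivity
        exact mul_le_mul (mul_le_mul hfr hTT hTT0 (by norm_num)) hA hQ0 (by positivity)
    _ = C * ((1 + 1 / τ) ^ 2 / τ) * Real.exp (-c * k) := by ring

omit [EP] in
/-- Off the diagonal either the radial parts or the arguments differ. -/
theorem exp_bound {δ : ℝ} (hδ : 0 < δ) : ∃ c₁ : ℝ, 0 < c₁ ∧ ∃ c₂ : ℝ, 0 < c₂ ∧
    ∀ (_ : EP) (k : ℕ), 1 ≤ k → ∀ v w : ℂ × ℂ, v ≠ 0 → w ≠ 0 → δ < fsDist v w →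
    ‖∑ m ∈ Finset.range (k + 1), mono k m v * conj (mono k m w) / (hm k m : ℂ)‖ /
        √(Ph v ^ k * Ph w ^ k) ≤ c₁ * Real.exp (-c₂ * k) := by
  set d : ℝ := min δ 1 with hd
  have hd0 : 0 < d := lt_min hδ one_pos
  have hd1 : d ≤ 1 := min_le_right _ _
  have hdδ : d ≤ δ := min_le_left _ _
  have hπ := Real.pi_gt_three
  have hcos1 : Real.cos d < 1 := by
    have := Real.cos_lt_cos_of_nonneg_of_le_pi (le_refl 0) (by linarith : d ≤ Real.pi) hd0
    rwa [Real.cos_zero] at this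
  have hcos0 : 0 < Real.cos d := Real.cos_pos_of_mem_Ioo ⟨by linarith, by linarith⟩
  set d1 : ℝ := 1 - Real.cos d with hd1'
  have h1 : 0 < d1 := by linarith
  have h2 : d1 < 1 := by linarith
  obtain ⟨Cr, hCr, hrad⟩ := radial_bound
  have hr0 : 0 < √(1 - d1 / 2) := Real.sqrt_pos.2 (by linarith)
  have hr1 : √(1 - d1 / 2) < 1 := by
    rw [Real.sqrt_lt' one_pos]
    linarith
  obtain ⟨C1, c1, hC1, hc1, hbd1⟩ := radial_const747 hr0 hr1
  obtain ⟨C2, c2, hC2, hc2, hang⟩ := angular_bound (τ := d1 / 4) (by linarith) (by linarith)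
  refine ⟨max (Cr * C1) C2, lt_max_of_lt_right hC2, min c1 c2, lt_min hc1 hc2, ?_⟩
  intro inst k hk v w hv hw hvw
  replace hrad := hrad inst
  replace hang := hang inst
  have hk0 : (0 : ℝ) ≤ k := Nat.cast_nonneg k
  have hfin : ∀ (C c : ℝ), C ≤ max (Cr * C1) C2 → min c1 c2 ≤ c →
      C * Real.exp (-c * k) ≤ max (Cr * C1) C2 * Real.exp (-(min c1 c2) * k) := by
    intro C c hC hc
    apply mul_le_mul hC _ (Real.exp_pos _).le (le_max_of_le_right hC2.le)
    apply Real.exp_le_exp.2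
    nlinarith
  set X : ℝ := ‖v.1‖ * ‖w.1‖ with hX
  set Y : ℝ := ‖v.2‖ * ‖w.2‖ with hY
  set N : ℝ := √((‖v.1‖ ^ 2 + ‖v.2‖ ^ 2) * (‖w.1‖ ^ 2 + ‖w.2‖ ^ 2)) with hN
  have hX0 : 0 ≤ X := by positivity
  have hY0 : 0 ≤ Y := by positivity
  have hpos : ∀ u : ℂ × ℂ, u ≠ 0 → 0 < ‖u.1‖ ^ 2 + ‖u.2‖ ^ 2 := by
    intro u hu
    by_contra hcon
    apply hu
    have e1 : ‖u.1‖ ^ 2 = 0 := by nlinarith [sq_nonneg ‖u.1‖, sq_nonneg ‖u.2‖]
    have e2 : ‖u.2‖ ^ 2 = 0 := by nlinarith [sq_nonneg ‖u.1‖, sq_nonneg ‖u.2‖]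
    have e3 : u.1 = 0 := by simpa using e1
    have e4 : u.2 = 0 := by simpa using e2
    exact Prod.ext e3 e4
  have hN0 : 0 < N := Real.sqrt_pos.2 (mul_pos (hpos v hv) (hpos w hw))
  have hXY : X + Y ≤ N := by
    apply Real.le_sqrt_of_sq_le
    rw [hX, hY]
    nlinarith [sq_nonneg (‖v.1‖ * ‖w.2‖ - ‖v.2‖ * ‖w.1‖)]
  have hG : ‖v.1 * conj w.1 + v.2 * conj w.2‖ < (1 - d1) * N := by
    have hlt : d < Real.arccos (‖v.1 * conj w.1 + v.2 * conj w.2‖ / N) := lt_of_le_of_lt hdδ hvw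
    by_contra hcon
    push Not at hcon
    have h3 : Real.cos d ≤ ‖v.1 * conj w.1 + v.2 * conj w.2‖ / N := by
      rw [le_div_iff₀ hN0]
      have : 1 - d1 = Real.cos d := by rw [hd1']; ring
      rwa [this] at hcon
    have h4 := Real.arccos_le_arccos h3
    rw [Real.arccos_cos hd0.le (by linarith)] at h4
    linarith
  by_cases hcase : X + Y ≤ (1 - d1 / 2) * N
  · have h5 := hrad k hk v w hv hw
    refine h5.trans ?_
    have h6 : √((‖v.1‖ * ‖w.1‖ + ‖v.2‖ * ‖w.2‖) / N) ^ k ≤ √(1 - d1 / 2) ^ k := by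
      apply pow_le_pow_left₀ (Real.sqrt_nonneg _)
      apply Real.sqrt_le_sqrt
      rw [div_le_iff₀ hN0]
      exact hcase
    have h7 : Cr * k * (k + 1) * √((‖v.1‖ * ‖w.1‖ + ‖v.2‖ * ‖w.2‖) / N) ^ k ≤
        Cr * ((k : ℝ) * (k + 1) * √(1 - d1 / 2) ^ k) := by
      have : Cr * ((k : ℝ) * (k + 1) * √(1 - d1 / 2) ^ k) =
          Cr * k * (k + 1) * √(1 - d1 / 2) ^ k := by ring
      rw [this]
      apply mul_le_mul_of_nonneg_left h6
      positivity
    refine h7.trans ?_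
    have h8 : Cr * ((k : ℝ) * (k + 1) * √(1 - d1 / 2) ^ k) ≤ Cr * C1 * Real.exp (-c1 * k) := by
      rw [mul_assoc Cr C1]
      exact mul_le_mul_of_nonneg_left (hbd1 k hk) hCr.le
    exact h8.trans (hfin _ _ (le_max_left _ _) (min_le_left _ _))
  · push Not at hcase
    set z1 : ℂ := v.1 * conj w.1 with hz1
    set z2 : ℂ := v.2 * conj w.2 with hz2
    have hn1 : ‖z1‖ = X := by rw [hz1, norm_mul, RCLike.norm_conj]
    have hn2 : ‖z2‖ = Y := by rw [hz2, norm_mul, RCLike.norm_conj]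
    have hgap : d1 / 2 * N < X + Y - ‖z1 + z2‖ := by nlinarith
    have hXl : d1 / 4 * N < X := by
      have h3 : Y - X ≤ ‖z1 + z2‖ := by
        have := norm_sub_norm_le z2 (-z1)
        rw [norm_neg, sub_neg_eq_add, hn1, hn2, add_comm] at this
        exact this
      nlinarith
    have hYl : d1 / 4 * N < Y := by
      have h3 : X - Y ≤ ‖z1 + z2‖ := by
        have := norm_sub_norm_le z1 (-z2)
        rw [norm_neg, sub_neg_eq_add, hn1, hn2] at this
        exact this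
      nlinarith
    have hXp : 0 < X := lt_of_le_of_lt (by positivity) hXl
    have hYp : 0 < Y := lt_of_le_of_lt (by positivity) hYl
    have hv1 : v.1 ≠ 0 := by
      intro h; rw [hX, h, norm_zero, zero_mul] at hXp; exact lt_irrefl _ hXp
    have hw1 : w.1 ≠ 0 := by
      intro h; rw [hX, h, norm_zero, mul_zero] at hXp; exact lt_irrefl _ hXp
    have hv2 : v.2 ≠ 0 := by
      intro h; rw [hY, h, norm_zero, zero_mul] at hYp; exact lt_irrefl _ hYp
    have hw2 : w.2 ≠ 0 := by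
      intro h; rw [hY, h, norm_zero, mul_zero] at hYp; exact lt_irrefl _ hYp
    have hz1' : z1 ≠ 0 := by
      intro h; rw [h, norm_zero] at hn1; linarith
    have hXc : (X : ℂ) ≠ 0 := by exact_mod_cast hXp.ne'
    have hYc : (Y : ℂ) ≠ 0 := by exact_mod_cast hYp.ne'
    set ζ : ℂ := z2 * X / (z1 * Y) with hζ
    have e1 : z1 + z2 = z1 / X * (X + Y * ζ) := by
      rw [hζ]
      field_simp
    have e2 : ‖z1 + z2‖ = ‖(X : ℂ) + Y * ζ‖ := by
      rw [e1, norm_mul, norm_div, hn1, Complex.norm_real, Real.norm_of_nonneg hX0,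
        div_self hXp.ne', one_mul]
    have e3 : X + Y - ‖z1 + z2‖ ≤ Y * ‖1 - ζ‖ := by
      have h3 : ‖((X + Y : ℝ) : ℂ)‖ - ‖(X : ℂ) + Y * ζ‖ ≤ ‖((X + Y : ℝ) : ℂ) - (X + Y * ζ)‖ :=
        norm_sub_norm_le _ _
      have h4 : ((X + Y : ℝ) : ℂ) - (X + Y * ζ) = Y * (1 - ζ) := by
        push_cast
        ring
      rw [h4, norm_mul, Complex.norm_real, Complex.norm_real, Real.norm_of_nonneg hY0,
        Real.norm_of_nonneg (by positivity)] at h3
      rw [e2]
      exact h3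
    have hζ1 : d1 / 4 ≤ ‖1 - ζ‖ := by
      by_contra hcon
      push Not at hcon
      have h3 : Y * ‖1 - ζ‖ ≤ Y * (d1 / 4) := mul_le_mul_of_nonneg_left hcon.le hY0
      nlinarith
    have h9 := hang k hk v w hv1 hv2 hw1 hw2 (by nlinarith) (by nlinarith) (by
      have : v.2 * conj w.2 * ((‖v.1‖ : ℂ) * ‖w.1‖) / (v.1 * conj w.1 * ((‖v.2‖ : ℂ) * ‖w.2‖)) = ζ := by
        rw [hζ, hz1, hz2, hX, hY]
        push_cast
        rfl
      rw [this]
      exact hζ1)
    exact h9.trans (hfin _ _ (le_max_right _ _) (min_le_right _ _))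

omit [EP] in
/-- Exponential decay with constants which do not depend on the parameter. -/
theorem uniform_decay {δ : ℝ} (hδ : 0 < δ) : ∃ c₁ : ℝ, 0 < c₁ ∧ ∃ c₂ : ℝ, 0 < c₂ ∧
    ∀ e : ℝ, 0 ≤ e → e ≤ 1 / 1000 → ∀ k : ℕ, 1 ≤ k →
    ∀ (ι : Type) [Fintype ι] [DecidableEq ι] (s : ι → ℂ × ℂ → ℂ),
      (metric e).IsOrthonormalBasis k s →
    ∀ v w : ℂ × ℂ, v ≠ 0 → w ≠ 0 → δ < fsDist v w →
      (metric e).kernelNorm k s v w ≤ c₁ * Real.exp (-c₂ * k) := by
  obtain ⟨c₁, h₁, c₂, h₂, H⟩ := exp_bound hδ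
  refine ⟨c₁, h₁, c₂, h₂, fun e he0 he1 k hk ι _ _ s hs v w hv hw hvw => ?_⟩
  letI inst : EP := ⟨e, he0, he1⟩
  have h3 := H inst k hk v w hv hw hvw
  have hs' : hB.IsOrthonormalBasis k s := hs
  have h4 := kernel_eq hs' hv hw
  rw [HermitianMetric.kernelNorm, h4]
  exact h3

omit [EP] in
theorem exists_onb' (e : ℝ) (he0 : 0 ≤ e) (he1 : e ≤ 1 / 1000) (k : ℕ) :
    ∃ s : Fin (k + 1) → ℂ × ℂ → ℂ, (metric e).IsOrthonormalBasis k s := by
  letI inst : EP := ⟨e, he0, he1⟩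
  exact exists_onb k

omit [EP] in
theorem isPositive (e : ℝ) (he0 : 0 ≤ e) (he1 : e ≤ 1 / 1000) : (metric e).IsPositive := by
  letI inst : EP := ⟨e, he0, he1⟩
  exact isPositive_hB

omit [EP] in
theorem not_analytic (e : ℝ) (he0 : 0 < e) (he1 : e ≤ 1 / 1000) : ¬ (metric e).IsRealAnalytic := by
  letI inst : EP := ⟨e, he0.le, he1⟩
  exact not_isRealAnalytic_hB he0

omit [EP] in
theorem hasDecay (e : ℝ) (he0 : 0 ≤ e) (he1 : e ≤ 1 / 1000) : (metric e).HasExponentialDecay := by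
  refine ⟨fun k _ => exists_onb' e he0 he1 k, fun δ hδ => ?_⟩
  obtain ⟨c₁, h₁, c₂, h₂, H⟩ := uniform_decay hδ
  exact ⟨c₁, h₁, c₂, h₂, H e he0 he1⟩

end Pool.Agent.Y16.BK
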